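import Mathlib

set_option autoImplicit false

/-!
# Injective hulls of modules (helper19, for MP_9c7981_al)

`hull`: every module `M : Type u` over a ring `A : Type u` embeds essentially into an injective module.
-/

namespace Pool.Agent.K6.H19.KT

universe u

variable {A : Type u} [Ring A]

/-- A submodule which is maximal among those which contain `I₀` and meet `V` trivially. -/
theorem exists_pseudo {M : Type u} [AddCommGroup M] [Module A M] (V I₀ : Submodule A M)
    (h : V ⊓ I₀ = ⊥) : ∃ I : Submodule A M, I₀ ≤ I ∧ V ⊓ I = ⊥ ∧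
      ∀ z : M, z ∉ I → ∃ v ∈ V, v ≠ 0 ∧ ∃ b : A, v - b • z ∈ I := by
  obtain ⟨I, hI, hmax⟩ := zorn_le_nonempty₀ {I : Submodule A M | V ⊓ I = ⊥} (by
    intro c hc hch y hy
    refine ⟨sSup c, ?_, fun z hz => le_sSup hz⟩
    rw [Set.mem_ofPred_eq, eq_bot_iff]
    rintro x ⟨hxV, hxc⟩
    obtain ⟨J, hJ, hxJ⟩ := (Submodule.mem_sSup_of_directed ⟨y, hy⟩ hch.directedOn).1 hxc
    have : x ∈ V ⊓ J := ⟨hxV, hxJ⟩
    rwa [hc hJ] at this) I₀ h
  refine ⟨I, hI, hmax.1, fun z hz => ?_⟩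
  by_contra hcon
  push Not at hcon
  have h1 : V ⊓ (I ⊔ Submodule.span A {z}) = ⊥ := by
    rw [eq_bot_iff]
    rintro v ⟨hvV, hv⟩
    obtain ⟨i, hi, w, hw, rfl⟩ := Submodule.mem_sup.1 hv
    obtain ⟨b, rfl⟩ := Submodule.mem_span_singleton.1 hw
    rw [Submodule.mem_bot]
    by_contra h0
    exact hcon _ hvV h0 b (by simpa using hi)
  have h2 := hmax.2 h1 le_sup_left
  exact hz (h2 (Submodule.mem_sup_right (Submodule.mem_span_singleton_self z)))

/-- Every module embeds in an injective module of the same universe. -/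
theorem exists_injective (M : Type u) [AddCommGroup M] [Module A M] :
    ∃ (Q : Type u) (_ : AddCommGroup Q) (_ : Module A Q) (j : M →ₗ[A] Q),
      Module.Injective A Q ∧ Function.Injective j := by
  obtain ⟨⟨J, hJ, f, hf⟩⟩ := (inferInstance : CategoryTheory.EnoughInjectives
    (ModuleCat.{u} A)).presentation (ModuleCat.of A M)
  refine ⟨J, inferInstance, inferInstance, f.hom, ?_, (ModuleCat.mono_iff_injective f).1 hf⟩
  have : CategoryTheory.Injective (ModuleCat.of A J) := hJ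
  exact Module.injective_module_of_injective_object A J

/-- Injective hulls exist. -/
theorem hull (M : Type u) [AddCommGroup M] [Module A M] :
    ∃ (E : Type u) (_ : AddCommGroup E) (_ : Module A E) (ι : M →ₗ[A] E),
      Module.Injective A E ∧ Function.Injective ι ∧
      ∀ x : E, x ≠ 0 → ∃ a : A, a • x ≠ 0 ∧ a • x ∈ LinearMap.range ι := by
  obtain ⟨Q, _, _, j, hQ, hj⟩ := exists_injective (A := A) M
  obtain ⟨H, hH0, hmax⟩ := zorn_le_nonempty₀ {H : Submodule A Q | LinearMap.range j ≤ H ∧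
    ∀ x ∈ H, x ≠ 0 → ∃ a : A, a • x ≠ 0 ∧ a • x ∈ LinearMap.range j} (by
      intro c hc hch y hy
      refine ⟨sSup c, ⟨(hc hy).1.trans (le_sSup hy), ?_⟩, fun z hz => le_sSup hz⟩
      intro x hx hx0
      obtain ⟨J, hJ, hxJ⟩ := (Submodule.mem_sSup_of_directed ⟨y, hy⟩ hch.directedOn).1 hx
      exact (hc hJ).2 x hxJ hx0) (LinearMap.range j) ⟨le_rfl, fun x hx hx0 => ⟨1, by simpa using hx0,
        by simpa using hx⟩⟩
  obtain ⟨hjH, hess⟩ := hmax.1
  obtain ⟨K, -, hHK, hK⟩ := exists_pseudo H ⊥ (by simp)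
  -- the inclusion of `H` in `Q ⧸ K`
  have hinj : Function.Injective (K.mkQ ∘ₗ H.subtype) := by
    rw [← LinearMap.ker_eq_bot, eq_bot_iff]
    rintro ⟨x, hx⟩ hx'
    simp only [LinearMap.mem_ker, LinearMap.comp_apply, Submodule.subtype_apply, Submodule.mkQ_apply,
      Submodule.Quotient.mk_eq_zero] at hx'
    have : x ∈ H ⊓ K := ⟨hx, hx'⟩
    rw [hHK, Submodule.mem_bot] at this
    simp [this]
  obtain ⟨φ, hφ⟩ := hQ.out (K.mkQ ∘ₗ H.subtype) hinj H.subtype
  have hφ' : ∀ x ∈ H, φ (K.mkQ x) = x := fun x hx => by simpa using hφ ⟨x, hx⟩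
  have hker : ∀ z : Q, φ (K.mkQ z) = 0 → z ∈ K := by
    intro z hz
    by_contra hzK
    obtain ⟨v, hv, hv0, b, hb⟩ := hK z hzK
    have : K.mkQ v = b • K.mkQ z := by
      rw [← map_smul, ← sub_eq_zero, ← map_sub]
      exact (Submodule.Quotient.mk_eq_zero K).2 hb
    have h1 := hφ' v hv
    rw [this, map_smul, hz, smul_zero] at h1
    exact hv0 h1.symm
  -- the range of `φ` is contained in `H`
  have hrange : LinearMap.range φ ≤ H := by
    refine hmax.2 (y := LinearMap.range φ) ⟨?_, ?_⟩ ?_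
    · exact hjH.trans fun x hx => ⟨_, hφ' x hx⟩
    · rintro x ⟨y, rfl⟩ hx0
      obtain ⟨z, rfl⟩ := K.mkQ_surjective y
      have hzK : z ∉ K := fun h => hx0 (by
        have : K.mkQ z = 0 := by simpa using h
        rw [this, map_zero])
      obtain ⟨v, hv, hv0, b, hb⟩ := hK z hzK
      have h1 : K.mkQ v = b • K.mkQ z := by
        rw [← map_smul, ← sub_eq_zero, ← map_sub]
        exact (Submodule.Quotient.mk_eq_zero K).2 hb
      have h2 : b • φ (K.mkQ z) = v := by rw [← map_smul, ← h1, hφ' v hv]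
      obtain ⟨a, ha0, ha⟩ := hess v hv hv0
      exact ⟨a * b, by rwa [mul_smul, h2], by rwa [mul_smul, h2]⟩
    · exact fun x hx => ⟨_, hφ' x hx⟩
  refine ⟨H, inferInstance, inferInstance, j.codRestrict H fun x => hjH ⟨x, rfl⟩, ?_, ?_, ?_⟩
  · refine ⟨fun X Y _ _ _ _ f hf g => ?_⟩
    obtain ⟨h, hh⟩ := hQ.out f hf (H.subtype ∘ₗ g)
    refine ⟨((φ ∘ₗ K.mkQ).codRestrict H fun x => hrange ⟨_, rfl⟩) ∘ₗ h, fun x => ?_⟩
    apply Subtype.ext
    simp only [LinearMap.comp_apply, LinearMap.codRestrict_apply]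
    rw [hh x]
    exact hφ' _ (g x).2
  · intro x y hxy
    exact hj (by simpa using congrArg Subtype.val hxy)
  · rintro ⟨x, hx⟩ hx0
    obtain ⟨a, ha0, y, hy⟩ := hess x hx (by simpa using hx0)
    refine ⟨a, ?_, y, ?_⟩
    · intro h
      exact ha0 (congrArg Subtype.val h)
    · apply Subtype.ext
      simpa using hy

end Pool.Agent.K6.H19.KT
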