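import Pool.Agent.K6.H19.KT.Semi

set_option autoImplicit false

/-!
# Semilocal rings such that the ideals in the right socle contain elements killed by the radical (helper19)
-/

namespace Pool.Agent.K6.H19.KT

open MulOpposite

universe u

variable {R : Type u} [Ring R]

/-- Every nonzero submodule of the right socle which is stable under left multiplications contains a nonzero
element killed by the radical from the left. -/
def Killed (R : Type u) [Ring R] : Prop :=
  ∀ C : Submodule Rᵐᵒᵖ (rightSocle R), (∀ r : R, ∀ z ∈ C, lmS r z ∈ C) → C ≠ ⊥ →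
    ∃ t ∈ C, t ≠ 0 ∧ ∀ j ∈ Ring.jacobson R, j * t.1 = 0

/-- `phi` is strictly monotone on the ideals which contain the radical. -/
theorem phi_lt2 [IsSemisimpleRing (R ⧸ Ring.jacobson R)] (hK : RightKasch R) (hT : RightCyclicTight R)
    (hP : Killed R) (A B : Ideal R) (hJA : Ring.jacobson R ≤ A)
    (hA : ∀ a ∈ A, ∀ r : R, a * r ∈ A) (hAB : A < B) : phi A < phi B := by
  refine lt_of_le_of_ne (phi_mono hAB.le) fun heq => ?_
  have hss := socle_semisimple (R := R)
  -- a finite set with annihilator `HH B`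
  obtain ⟨F, hF1, hF2⟩ := starS hT (HH B)
  have hLB : LL B ≤ HH B := fun t ht => ⟨ht.1, ht.2.2⟩
  have hF3 : ∀ f ∈ F, f ∈ phi A := by
    intro f hf
    rw [heq]
    exact fun t ht => hF1 f hf t (hLB ht)
  have hLA : LL A ≤ HH B := fun t ht => hF2 t ht.1 fun f hf => hF3 f hf t ht
  -- the submodule `C` generated by the products
  let C : Submodule Rᵐᵒᵖ (rightSocle R) :=
    Submodule.span Rᵐᵒᵖ {y | ∃ x ∈ HH A, ∃ b ∈ B, y.1 = x * b}
  have hCst : ∀ r : R, ∀ z ∈ C, lmS r z ∈ C := by
    intro r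
    have : C ≤ C.comap (lmS r) := by
      refine Submodule.span_le.2 ?_
      rintro y ⟨x, hx, b, hb, hy⟩
      refine Submodule.subset_span ⟨r * x, ⟨mul_mem_socle r hx.1, fun a ha => ?_⟩, b, hb, ?_⟩
      · rw [mul_assoc, hx.2 a ha, mul_zero]
      · rw [lmS_coe, hy, mul_assoc]
    exact fun z hz => this hz
  have hC0 : C ≠ ⊥ := by
    obtain ⟨x, hx, b, hb, hxb⟩ := exists_sep hK A B hJA hA hAB.not_ge
    have hmem : x * b ∈ rightSocle R := by
      have := (rightSocle R).smul_mem (op b) hx.1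
      exact this
    refine (Submodule.ne_bot_iff _).2 ⟨⟨x * b, hmem⟩, Submodule.subset_span ⟨x, hx, b, hb, rfl⟩, ?_⟩
    intro h0
    exact hxb (congrArg Subtype.val h0)
  obtain ⟨t, htC, ht0, htJ⟩ := hP C hCst hC0
  -- `A` kills `C`
  have hCA : ∀ z ∈ C, ∀ a ∈ A, z.1 * a = 0 := by
    intro z hz a ha
    have : C ≤ (HH A).submoduleOf (rightSocle R) := by
      refine Submodule.span_le.2 ?_
      rintro y ⟨x, hx, b, hb, hy⟩
      refine ⟨y.2, fun a ha => ?_⟩
      rw [show ((rightSocle R).subtype y) = x * b from hy, mul_assoc]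
      exact hx.2 _ (A.mul_mem_left b ha)
    exact (this hz).2 a ha
  have htL : t.1 ∈ LL A := ⟨t.2, htJ, fun a ha => hCA t htC a ha⟩
  have htB : t.1 ∈ HH B := hLA htL
  -- the projection to `HH B` kills `C`
  obtain ⟨W, hW⟩ := exists_isCompl ((HH B).submoduleOf (rightSocle R))
  let π := Submodule.projectionOnto _ _ hW
  have hπ : C ≤ LinearMap.ker π := by
    refine Submodule.span_le.2 ?_
    rintro y ⟨x, hx, b, hb, hy⟩
    have h1 : y = op b • (⟨x, hx.1⟩ : rightSocle R) := Subtype.ext hy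
    change y ∈ LinearMap.ker π
    rw [LinearMap.mem_ker, h1, map_smul]
    apply Subtype.ext
    apply Subtype.ext
    exact (π ⟨x, hx.1⟩).2.2 b hb
  have h1 : π t = 0 := LinearMap.mem_ker.1 (hπ htC)
  have h2 : π t = ⟨t, htB⟩ := Submodule.projectionOnto_apply_left hW ⟨t, htB⟩
  rw [h1] at h2
  exact ht0 (congrArg Subtype.val h2).symm

/-- The left annihilator of `LL J` is `J`. -/
theorem phi_jacobson2 [IsSemisimpleRing (R ⧸ Ring.jacobson R)] (hK : RightKasch R)
    (hT : RightCyclicTight R) (hP : Killed R) : phi (Ring.jacobson R) = Ring.jacobson R := by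
  by_contra hne
  have h0 : Ring.jacobson R < phi (Ring.jacobson R) :=
    lt_of_le_of_ne (jacobson_le_phi _) (Ne.symm hne)
  let D : ℕ → Ideal R := fun n => phi^[n] (Ring.jacobson R)
  have hD1 : ∀ n, D (n + 1) = phi (D n) := fun n => Function.iterate_succ_apply' _ _ _
  have hJD : ∀ n, Ring.jacobson R ≤ D n := by
    intro n
    cases n with
    | zero => exact le_rfl
    | succ n => rw [hD1]; exact jacobson_le_phi _
  have htwo : ∀ n, ∀ a ∈ D n, ∀ r : R, a * r ∈ D n := by
    intro n
    cases n with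
    | zero => exact fun a ha r => (Ring.jacobson R).mul_mem_right r ha
    | succ n => intro a ha r; rw [hD1] at ha ⊢; exact phi_mul_right _ ha r
  have hlt : ∀ n, D n < D (n + 1) := by
    intro n
    induction n with
    | zero => exact h0
    | succ n ih =>
      have h1 := phi_lt2 hK hT hP (D n) (D (n + 1)) (hJD n) (htwo n) ih
      rwa [← hD1, ← hD1] at h1
  have hnoe : IsNoetherian (R ⧸ Ring.jacobson R) (R ⧸ Ring.jacobson R) := inferInstance
  have hwf : WellFoundedGT (Submodule (R ⧸ Ring.jacobson R) (R ⧸ Ring.jacobson R)) := inferInstance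
  obtain ⟨n, hn⟩ := WellFounded.not_rel_apply_succ
    (r := ((· > ·) : Submodule (R ⧸ Ring.jacobson R) (R ⧸ Ring.jacobson R) → _ → Prop))
    (fun n => (D n).map (Ideal.Quotient.mk (Ring.jacobson R)))
  refine hn (lt_of_le_of_ne (Ideal.map_mono (hlt n).le) fun heq => (hlt n).not_ge fun x hx => ?_)
  have h1 : Ideal.Quotient.mk (Ring.jacobson R) x ∈
      (D n).map (Ideal.Quotient.mk (Ring.jacobson R)) := by
    rw [heq]; exact Ideal.mem_map_of_mem _ hx
  obtain ⟨y, hy, hyx⟩ := (Ideal.mem_map_iff_of_surjective _ Ideal.Quotient.mk_surjective).1 h1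
  have h2 : y - x ∈ Ring.jacobson R := (Ideal.Quotient.mk_eq_mk_iff_sub_mem _ _).1 hyx
  have h3 := (D n).sub_mem hy (hJD n h2)
  rwa [sub_sub_cancel] at h3

/-- The ring is left Kasch. -/
theorem leftKasch_of_killed [IsSemisimpleRing (R ⧸ Ring.jacobson R)] (hK : RightKasch R)
    (hT : RightCyclicTight R) (hP : Killed R) : LeftKasch R := by
  intro M _ _ hM
  obtain ⟨N, hNmax, ⟨e⟩⟩ := isSimpleModule_iff_quot_maximal.1 hM
  have hJN : Ring.jacobson R ≤ N := Ring.jacobson_le_of_isMaximal N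
  obtain ⟨g', hidem, hspan⟩ := IsSemisimpleRing.ideal_eq_span_idempotent
    (N.map (Ideal.Quotient.mk (Ring.jacobson R)))
  have hg' : g' ∈ N.map (Ideal.Quotient.mk (Ring.jacobson R)) := by
    rw [hspan]; exact Ideal.mem_span_singleton_self _
  obtain ⟨g, hg, rfl⟩ := (Ideal.mem_map_iff_of_surjective _ Ideal.Quotient.mk_surjective).1 hg'
  have h1 : (1 - g) ∉ phi (Ring.jacobson R) := by
    rw [phi_jacobson2 hK hT hP]
    intro h1
    have := N.add_mem (hJN h1) hg
    rw [sub_add_cancel] at this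
    exact hNmax.ne_top ((Ideal.eq_top_iff_one N).2 this)
  have h2 : ∃ t ∈ LL (Ring.jacobson R), (1 - g) * t ≠ 0 := by
    by_contra hcon
    push Not at hcon
    exact h1 hcon
  obtain ⟨t, ht, ht0⟩ := h2
  have hkill : ∀ n ∈ N, n * ((1 - g) * t) = 0 := by
    intro n hn
    rw [← mul_assoc]
    refine ht.2.1 _ ?_
    have h5 : Ideal.Quotient.mk (Ring.jacobson R) n ∈ N.map (Ideal.Quotient.mk (Ring.jacobson R)) :=
      Ideal.mem_map_of_mem _ hn
    rw [hspan] at h5
    obtain ⟨c, hc⟩ := Ideal.mem_span_singleton'.1 h5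
    rw [← Ideal.Quotient.eq_zero_iff_mem, map_mul, map_sub, map_one, ← hc, mul_sub, mul_one, mul_assoc,
      hidem.eq, sub_self]
  have : IsSimpleModule R (R ⧸ N) := isSimpleModule_iff_isCoatom.2 hNmax.out
  let f : (R ⧸ N) →ₗ[R] R := N.liftQ (LinearMap.toSpanSingleton R R ((1 - g) * t)) (fun n hn => by
    rw [LinearMap.mem_ker, LinearMap.toSpanSingleton_apply, smul_eq_mul]
    exact hkill n hn)
  have hf : Function.Injective f := LinearMap.injective_of_ne_zero (fun h0 => by
    apply ht0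
    have := LinearMap.congr_fun h0 (N.mkQ 1)
    simpa [f] using this)
  exact ⟨f ∘ₗ e.toLinearMap, hf.comp e.injective⟩

end Pool.Agent.K6.H19.KT
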