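import Pool.Agent.K6.H19.KT.Hull

set_option autoImplicit false

/-!
# Kasch rings whose injective hull has cyclic submodules that embed in free modules (helper19)

Right modules over `R` are modules over `Rᵐᵒᵖ`.
-/

namespace Pool.Agent.K6.H19.KT

open MulOpposite

universe u

/-- `R` is right Kasch: every simple right `R`-module embeds in the right module `R`. -/
def RightKasch (R : Type u) [Ring R] : Prop :=
  ∀ (M : Type u) [AddCommGroup M] [Module Rᵐᵒᵖ M], IsSimpleModule Rᵐᵒᵖ M →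
    ∃ f : M →ₗ[Rᵐᵒᵖ] R, Function.Injective f

/-- `R` is left Kasch: every simple left `R`-module embeds in the left module `R`. -/
def LeftKasch (R : Type u) [Ring R] : Prop :=
  ∀ (M : Type u) [AddCommGroup M] [Module R M], IsSimpleModule R M →
    ∃ f : M →ₗ[R] R, Function.Injective f

/-- `R` is right generalized `R`-tight: every cyclic submodule of an injective envelope `E` of the right
module `R` embeds in a free right `R`-module. -/
def RightCyclicTight (R : Type u) [Ring R] : Prop :=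
  ∀ (E : Type u) [AddCommGroup E] [Module Rᵐᵒᵖ E], Module.Injective Rᵐᵒᵖ E →
    ∀ ι : R →ₗ[Rᵐᵒᵖ] E, Function.Injective ι →
    (∀ N : Submodule Rᵐᵒᵖ E, N ≠ ⊥ → N ⊓ LinearMap.range ι ≠ ⊥) →
    ∀ x : E, ∃ (I : Type u) (f : ↥(Submodule.span Rᵐᵒᵖ {x}) →ₗ[Rᵐᵒᵖ] (I →₀ R)),
      Function.Injective f

/-- The right socle of `R`: the sum of the minimal right ideals. -/
def rightSocle (R : Type u) [Ring R] : Submodule Rᵐᵒᵖ R :=
  sSup {J : Submodule Rᵐᵒᵖ R | IsAtom J}

variable {R : Type u} [Ring R]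

/-- Left multiplication by `r`, a homomorphism of right modules. -/
def lm (r : R) : R →ₗ[Rᵐᵒᵖ] R where
  toFun x := r * x
  map_add' x y := mul_add r x y
  map_smul' a x := by simp [← mul_assoc]

@[simp] theorem lm_apply (r x : R) : lm r x = r * x := rfl

/-- A cyclic right module with an essential submodule which embeds in `R` embeds in a free module, so that
the annihilator of its generator is the right annihilator of a finite set. -/
theorem annihilator_finite (hT : RightCyclicTight R) {N : Type u} [AddCommGroup N] [Module Rᵐᵒᵖ N]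
    (U : Submodule Rᵐᵒᵖ N) (hU : ∀ y : N, y ≠ 0 → ∃ a : Rᵐᵒᵖ, a • y ≠ 0 ∧ a • y ∈ U)
    (g : U →ₗ[Rᵐᵒᵖ] R) (hg : Function.Injective g) (x : N) :
    ∃ F : Finset R, ∀ a : R, op a • x = 0 ↔ ∀ f ∈ F, f * a = 0 := by
  obtain ⟨E, _, _, ι, hE, hι, hess⟩ := hull (A := Rᵐᵒᵖ) R
  obtain ⟨h, hh⟩ := hE.out U.subtype U.subtype_injective (ι ∘ₗ g)
  have hinj : ∀ y : N, h y = 0 → y = 0 := by
    intro y hy
    by_contra hy0
    obtain ⟨a, ha0, haU⟩ := hU y hy0
    have h1 : h (a • y) = ι (g ⟨a • y, haU⟩) := hh ⟨a • y, haU⟩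
    rw [map_smul, hy, smul_zero] at h1
    have h2 : g ⟨a • y, haU⟩ = 0 := hι (by rw [← h1, map_zero])
    have h3 : (⟨a • y, haU⟩ : U) = 0 := hg (by rw [h2, map_zero])
    exact ha0 (congrArg Subtype.val h3)
  obtain ⟨I, f, hf⟩ := hT E hE ι hι (fun M hM => by
    obtain ⟨z, hz, hz0⟩ := (Submodule.ne_bot_iff _).1 hM
    obtain ⟨a, ha0, ha⟩ := hess z hz0
    exact (Submodule.ne_bot_iff _).2 ⟨a • z, ⟨M.smul_mem a hz, ha⟩, ha0⟩) (h x)
  set w : Submodule.span Rᵐᵒᵖ {h x} := ⟨h x, Submodule.mem_span_singleton_self _⟩ with hw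
  classical
  refine ⟨(f w).support.image (f w), fun a => ?_⟩
  have key : op a • x = 0 ↔ op a • f w = 0 := by
    constructor
    · intro h0
      rw [← map_smul]
      have : op a • w = 0 := by
        apply Subtype.ext
        change op a • h x = 0
        rw [← map_smul, h0, map_zero]
      rw [this, map_zero]
    · intro h0
      rw [← map_smul] at h0
      have h1 : op a • w = 0 := hf (by rw [h0, map_zero])
      have h2 : op a • h x = 0 := congrArg Subtype.val h1
      rw [← map_smul] at h2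
      exact hinj _ h2
  rw [key]
  constructor
  · intro h0 r hr
    obtain ⟨i, -, rfl⟩ := Finset.mem_image.1 hr
    have := DFunLike.congr_fun h0 i
    simpa using this
  · intro h0
    ext i
    by_cases hi : i ∈ (f w).support
    · simpa using h0 _ (Finset.mem_image_of_mem _ hi)
    · rw [Finsupp.notMem_support_iff] at hi
      simp [hi]

/-- If the right ideals `V` and `I₀` meet trivially then some finite set kills `I₀` from the left and has
trivial right annihilator in `V`. -/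
theorem star (hT : RightCyclicTight R) (V I₀ : Submodule Rᵐᵒᵖ R) (h : V ⊓ I₀ = ⊥) :
    ∃ F : Finset R, (∀ f ∈ F, ∀ x ∈ I₀, f * x = 0) ∧ ∀ x ∈ V, (∀ f ∈ F, f * x = 0) → x = 0 := by
  obtain ⟨I, hI, hVI, hmax⟩ := exists_pseudo V I₀ h
  have hinj : Function.Injective (I.mkQ ∘ₗ V.subtype) := by
    rw [← LinearMap.ker_eq_bot, eq_bot_iff]
    rintro ⟨x, hx⟩ hx'
    simp only [LinearMap.mem_ker, LinearMap.comp_apply, Submodule.subtype_apply, Submodule.mkQ_apply,
      Submodule.Quotient.mk_eq_zero] at hx'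
    have : x ∈ V ⊓ I := ⟨hx, hx'⟩
    rw [hVI, Submodule.mem_bot] at this
    simp [this]
  let e := LinearEquiv.ofInjective (I.mkQ ∘ₗ V.subtype) hinj
  obtain ⟨F, hF⟩ := annihilator_finite hT (N := R ⧸ I) (LinearMap.range (I.mkQ ∘ₗ V.subtype)) (by
    intro y hy
    obtain ⟨z, rfl⟩ := I.mkQ_surjective y
    have hz : z ∉ I := fun h0 => hy (by simpa using h0)
    obtain ⟨v, hv, hv0, b, hb⟩ := hmax z hz
    have h1 : I.mkQ v = b • I.mkQ z := by
      rw [← map_smul, ← sub_eq_zero, ← map_sub]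
      exact (Submodule.Quotient.mk_eq_zero I).2 hb
    refine ⟨b, ?_, ?_⟩
    · rw [← h1]
      intro h0
      have : v ∈ V ⊓ I := ⟨hv, (Submodule.Quotient.mk_eq_zero I).1 h0⟩
      rw [hVI, Submodule.mem_bot] at this
      exact hv0 this
    · rw [← h1]
      exact ⟨⟨v, hv⟩, rfl⟩) (V.subtype ∘ₗ e.symm.toLinearMap)
    (V.subtype_injective.comp e.symm.injective) (I.mkQ 1)
  have hF' : ∀ a : R, a ∈ I ↔ ∀ f ∈ F, f * a = 0 := by
    intro a
    rw [← hF a, ← map_smul]
    simp
  refine ⟨F, fun f hf x hx => (hF' x).1 (hI hx) f hf, fun x hx hx0 => ?_⟩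
  have : x ∈ V ⊓ I := ⟨hx, (hF' x).2 hx0⟩
  rwa [hVI, Submodule.mem_bot] at this

/-- A criterion for cyclic submodules to be minimal. -/
theorem isAtom_span {A M : Type*} [Ring A] [AddCommGroup M] [Module A M] {y : M} (hy : y ≠ 0)
    (h : ∀ c : A, c • y ≠ 0 → ∃ b : A, b • c • y = y) : IsAtom (Submodule.span A {y}) := by
  refine ⟨by simpa [Submodule.span_singleton_eq_bot] using hy, fun J hJ => ?_⟩
  by_contra hJ0
  obtain ⟨z, hz, hz0⟩ := (Submodule.ne_bot_iff _).1 hJ0
  obtain ⟨c, rfl⟩ := Submodule.mem_span_singleton.1 (hJ.le hz)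
  obtain ⟨b, hb⟩ := h c hz0
  refine hJ.not_ge ?_
  rw [Submodule.span_singleton_le_iff_mem, ← hb]
  exact J.smul_mem b hz

theorem mem_socle_of {y : R} (h : ∀ c : R, y * c ≠ 0 → ∃ b : R, y * c * b = y) :
    y ∈ rightSocle R := by
  by_cases hy : y = 0
  · rw [hy]; exact (rightSocle R).zero_mem
  have : IsAtom (Submodule.span Rᵐᵒᵖ {y}) := isAtom_span hy fun c hc => by
    obtain ⟨b, hb⟩ := h c.unop (by simpa using hc)
    exact ⟨op b, by simpa using hb⟩
  exact le_sSup (α := Submodule Rᵐᵒᵖ R) this (Submodule.mem_span_singleton_self y)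

/-- The right socle is a left ideal. -/
theorem mul_mem_socle (r : R) {x : R} (hx : x ∈ rightSocle R) : r * x ∈ rightSocle R := by
  have : rightSocle R ≤ (rightSocle R).comap (lm r) := by
    refine sSup_le fun J hJ x hx => ?_
    change r * x ∈ rightSocle R
    refine mem_socle_of fun c hc => ?_
    have h1 : x * c ≠ 0 := fun h0 => hc (by rw [mul_assoc, h0, mul_zero])
    have h2 : Submodule.span Rᵐᵒᵖ {x * c} = J := by
      have hle : Submodule.span Rᵐᵒᵖ {x * c} ≤ J := by
        rw [Submodule.span_singleton_le_iff_mem]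
        simpa using J.smul_mem (op c) hx
      rcases (hJ : IsAtom J).le_iff.1 hle with h | h
      · rw [Submodule.span_singleton_eq_bot] at h
        exact absurd h h1
      · exact h
    rw [← h2] at hx
    obtain ⟨b, hb⟩ := Submodule.mem_span_singleton.1 hx
    refine ⟨b.unop, ?_⟩
    have hb' : x * c * b.unop = x := by simpa using hb
    calc r * x * c * b.unop = r * (x * c * b.unop) := by simp only [mul_assoc]
      _ = r * x := by rw [hb']
  exact this hx

/-- The right socle is essential as a left ideal. -/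
theorem left_essential (hK : RightKasch R) (hT : RightCyclicTight R) {x : R} (hx : x ≠ 0) :
    ∃ r : R, r * x ≠ 0 ∧ r * x ∈ rightSocle R := by
  obtain ⟨I, -, hmax⟩ := zorn_le_nonempty₀ {I : Submodule Rᵐᵒᵖ R | x ∉ I} (by
    intro c hc hch y hy
    refine ⟨sSup c, ?_, fun z hz => le_sSup hz⟩
    intro hxc
    obtain ⟨J, hJ, hxJ⟩ := (Submodule.mem_sSup_of_directed ⟨y, hy⟩ hch.directedOn).1 hxc
    exact hc hJ hxJ) ⊥ (by simpa using hx)
  have hxI : x ∉ I := hmax.1
  have hgen : ∀ z : R, z ∉ I → ∃ b : Rᵐᵒᵖ, x - b • z ∈ I := by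
    intro z hz
    by_contra hcon
    have h1 : x ∉ I ⊔ Submodule.span Rᵐᵒᵖ {z} := by
      intro hmem
      obtain ⟨i, hi, w, hw, hiw⟩ := Submodule.mem_sup.1 hmem
      obtain ⟨b, rfl⟩ := Submodule.mem_span_singleton.1 hw
      exact hcon ⟨b, by rw [← hiw]; simpa using hi⟩
    exact hz (hmax.2 h1 le_sup_left (Submodule.mem_sup_right (Submodule.mem_span_singleton_self z)))
  have hgen' : ∀ z : R, z ∉ I → ∃ b : Rᵐᵒᵖ, b • I.mkQ z = I.mkQ x := by
    intro z hz
    obtain ⟨b, hb⟩ := hgen z hz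
    refine ⟨b, ?_⟩
    rw [← map_smul, eq_comm, ← sub_eq_zero, ← map_sub]
    exact (Submodule.Quotient.mk_eq_zero I).2 hb
  have hx0 : I.mkQ x ≠ 0 := fun h0 => hxI ((Submodule.Quotient.mk_eq_zero I).1 h0)
  have hatom : IsAtom (Submodule.span Rᵐᵒᵖ {I.mkQ x}) := isAtom_span hx0 fun c hc => by
    rw [← map_smul] at hc ⊢
    exact hgen' _ fun h0 => hc ((Submodule.Quotient.mk_eq_zero I).2 h0)
  obtain ⟨g, hg⟩ := hK (Submodule.span Rᵐᵒᵖ {I.mkQ x}) (isSimpleModule_iff_isAtom.2 hatom)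
  obtain ⟨F, hF⟩ := annihilator_finite hT (N := R ⧸ I) (Submodule.span Rᵐᵒᵖ {I.mkQ x}) (by
    intro y hy
    obtain ⟨z, rfl⟩ := I.mkQ_surjective y
    have hz : z ∉ I := fun h0 => hy (by simpa using h0)
    obtain ⟨b, hb⟩ := hgen' z hz
    exact ⟨b, by rw [hb]; exact hx0, by rw [hb]; exact Submodule.mem_span_singleton_self _⟩)
    g hg (I.mkQ 1)
  have hF' : ∀ a : R, a ∈ I ↔ ∀ f ∈ F, f * a = 0 := by
    intro a
    rw [← hF a, ← map_smul]
    simp
  have : ∃ f ∈ F, f * x ≠ 0 := by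
    by_contra hcon
    push Not at hcon
    exact hxI ((hF' x).2 hcon)
  obtain ⟨f, hf, hfx⟩ := this
  refine ⟨f, hfx, mem_socle_of fun c hc => ?_⟩
  have h1 : x * c ∉ I := fun h0 => hc (by rw [mul_assoc]; exact (hF' _).1 h0 f hf)
  obtain ⟨b, hb⟩ := hgen _ h1
  have h2 := (hF' _).1 hb f hf
  refine ⟨b.unop, ?_⟩
  have h3 : f * (x - x * c * b.unop) = 0 := by simpa using h2
  rw [mul_sub, sub_eq_zero] at h3
  calc f * x * c * b.unop = f * (x * c * b.unop) := by simp only [mul_assoc]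
    _ = f * x := h3.symm

/-- If `R` is left Kasch then every proper left ideal kills a nonzero element of the right socle. -/
theorem exists_killed (hL : LeftKasch R) (hK : RightKasch R) (hT : RightCyclicTight R) (B : Ideal R)
    (hB : B ≠ ⊤) : ∃ t : R, t ≠ 0 ∧ t ∈ rightSocle R ∧ ∀ b ∈ B, b * t = 0 := by
  obtain ⟨N, hN, hBN⟩ := Ideal.exists_le_maximal B hB
  obtain ⟨f, hf⟩ := hL (R ⧸ N) (isSimpleModule_iff_isCoatom.2 hN.out)
  have h1 : (1 : R) ∉ N := fun h => hN.ne_top ((Ideal.eq_top_iff_one N).2 h)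
  set t : R := f (Submodule.Quotient.mk 1) with ht
  have ht0 : t ≠ 0 := by
    intro h0
    have : (Submodule.Quotient.mk 1 : R ⧸ N) = 0 := hf (by rw [map_zero]; exact h0)
    exact h1 ((Submodule.Quotient.mk_eq_zero N).1 this)
  have hNt : ∀ n : R, n ∈ N → n * t = 0 := by
    intro n hn
    have : n • (Submodule.Quotient.mk 1 : R ⧸ N) = 0 := by
      rw [← Submodule.Quotient.mk_smul, Submodule.Quotient.mk_eq_zero]
      simpa using hn
    rw [ht, ← smul_eq_mul, ← map_smul, this, map_zero]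
  refine ⟨t, ht0, ?_, fun b hb => hNt b (hBN hb)⟩
  obtain ⟨r, hr0, hr⟩ := left_essential hK hT ht0
  have hrN : r ∉ N := fun h => hr0 (hNt r h)
  have htop : N ⊔ Ideal.span {r} = ⊤ := by
    refine hN.out.2 _ ?_
    refine lt_of_le_of_ne le_sup_left fun h => hrN ?_
    rw [h]
    exact Ideal.mem_sup_right (Ideal.mem_span_singleton_self r)
  have h2 : (1 : R) ∈ N ⊔ Ideal.span {r} := by rw [htop]; exact Submodule.mem_top
  obtain ⟨n, hn, w, hw, hnw⟩ := Submodule.mem_sup.1 h2
  obtain ⟨s, rfl⟩ := Submodule.mem_span_singleton.1 hw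
  have h3 : t = s * (r * t) := by
    calc t = (n + s • r) * t := by rw [hnw, one_mul]
      _ = s * (r * t) := by rw [add_mul, hNt n hn, zero_add, smul_eq_mul, mul_assoc]
  rw [h3]
  exact mul_mem_socle s hr

/-- The right socle is essential in `R_R`. -/
theorem essential (hL : LeftKasch R) (hK : RightKasch R) (hT : RightCyclicTight R)
    (I : Submodule Rᵐᵒᵖ R) (hI : I ≠ ⊥) : I ⊓ rightSocle R ≠ ⊥ := by
  intro h
  obtain ⟨F, hF1, hF2⟩ := star hT (rightSocle R) I (by rwa [inf_comm])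
  have hspan : Ideal.span (F : Set R) = ⊤ := by
    by_contra hne
    obtain ⟨t, ht0, htS, ht⟩ := exists_killed hL hK hT _ hne
    exact ht0 (hF2 t htS fun f hf => ht f (Ideal.subset_span hf))
  obtain ⟨x, hx, hx0⟩ := (Submodule.ne_bot_iff _).1 hI
  let A : Ideal R :=
    { carrier := {r | r * x = 0}
      add_mem' := fun {a b} ha hb => by
        change (a + b) * x = 0
        rw [add_mul, show a * x = 0 from ha, show b * x = 0 from hb, add_zero]
      zero_mem' := by
        change (0 : R) * x = 0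
        rw [zero_mul]
      smul_mem' := fun c a ha => by
        change c * a * x = 0
        rw [mul_assoc, show a * x = 0 from ha, mul_zero] }
  have hA : Ideal.span (F : Set R) ≤ A := Ideal.span_le.2 fun f hf => hF1 f hf x hx
  have h1 : (1 : R) ∈ A := hA (by rw [hspan]; exact Submodule.mem_top)
  exact hx0 (by simpa using (show (1 : R) * x = 0 from h1))

/-- The right socle is finitely generated. -/
theorem socle_fg (hL : LeftKasch R) (hK : RightKasch R) (hT : RightCyclicTight R) :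
    (rightSocle R).FG := by
  by_contra hfg
  let B : Ideal R :=
    { carrier := {r | ∃ T : Submodule Rᵐᵒᵖ R, T.FG ∧ T ≤ rightSocle R ∧
        (rightSocle R).map (lm r) ≤ T}
      add_mem' := by
        rintro a b ⟨T, hT1, hT2, hT3⟩ ⟨T', hT1', hT2', hT3'⟩
        refine ⟨T ⊔ T', hT1.sup hT1', sup_le hT2 hT2', ?_⟩
        rintro _ ⟨s, hs, rfl⟩
        rw [lm_apply, add_mul]
        exact Submodule.add_mem_sup (hT3 ⟨s, hs, rfl⟩) (hT3' ⟨s, hs, rfl⟩)
      zero_mem' := ⟨⊥, Submodule.fg_bot, bot_le, by rintro _ ⟨s, hs, rfl⟩; simp⟩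
      smul_mem' := by
        rintro c a ⟨T, hT1, hT2, hT3⟩
        refine ⟨T.map (lm c), hT1.map _, ?_, ?_⟩
        · rintro _ ⟨s, hs, rfl⟩
          exact mul_mem_socle c (hT2 hs)
        · rintro _ ⟨s, hs, rfl⟩
          exact ⟨a * s, hT3 ⟨s, hs, rfl⟩, by simp [mul_assoc]⟩ }
  have hB : B ≠ ⊤ := by
    intro h
    obtain ⟨T, hT1, hT2, hT3⟩ := (show (1 : R) ∈ B by rw [h]; exact Submodule.mem_top)
    have : T = rightSocle R := le_antisymm hT2 fun s hs => by simpa using hT3 ⟨s, hs, rfl⟩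
    exact hfg (this ▸ hT1)
  obtain ⟨t, ht0, htS, ht⟩ := exists_killed hL hK hT B hB
  -- the socle is semisimple
  have hss : IsSemisimpleModule Rᵐᵒᵖ (rightSocle R) := by
    have := isSemisimpleModule_biSup_of_isSemisimpleModule_submodule (R := Rᵐᵒᵖ) (M := R)
      (s := {J : Submodule Rᵐᵒᵖ R | IsAtom J}) (p := id) (fun J hJ => by
        have : IsSimpleModule Rᵐᵒᵖ J := isSimpleModule_iff_isAtom.2 hJ
        exact inferInstanceAs (IsSemisimpleModule Rᵐᵒᵖ J))
    have h2 : (⨆ i ∈ {J : Submodule Rᵐᵒᵖ R | IsAtom J}, id i) = rightSocle R := by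
      rw [rightSocle, sSup_eq_iSup]; rfl
    rwa [h2] at this
  have htle : Submodule.span Rᵐᵒᵖ {t} ≤ rightSocle R := by
    rwa [Submodule.span_singleton_le_iff_mem]
  have hss' : IsSemisimpleModule Rᵐᵒᵖ (Submodule.span Rᵐᵒᵖ {t}) :=
    IsSemisimpleModule.of_injective (Submodule.inclusion htle) (Submodule.inclusion_injective htle)
  rcases IsSemisimpleModule.eq_bot_or_exists_simple_le (Submodule.span Rᵐᵒᵖ {t}) with h | h
  · rw [Submodule.span_singleton_eq_bot] at h
    exact ht0 h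
  obtain ⟨V, hVt, hV⟩ := h
  have hVatom : IsAtom V := isSimpleModule_iff_isAtom.1 hV
  obtain ⟨W', hW'⟩ := exists_isCompl (V.submoduleOf (rightSocle R))
  have hVS : V ≤ rightSocle R := hVt.trans htle
  obtain ⟨F, hF1, hF2⟩ := star hT V (W'.map (rightSocle R).subtype) (by
    rw [eq_bot_iff]
    rintro x ⟨hxV, ⟨y, hyS⟩, hy, rfl⟩
    have h1 : (⟨y, hyS⟩ : rightSocle R) ∈ V.submoduleOf (rightSocle R) ⊓ W' := ⟨hxV, hy⟩
    rw [hW'.inf_eq_bot, Submodule.mem_bot] at h1
    rw [Submodule.mem_bot]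
    exact congrArg Subtype.val h1)
  obtain ⟨v, hvV, hv0⟩ := (Submodule.ne_bot_iff _).1 hVatom.1
  refine hv0 (hF2 v hvV fun f hf => ?_)
  have hfB : f ∈ B := by
    refine ⟨V.map (lm f), Submodule.FG.map _ ?_, ?_, ?_⟩
    · have : Submodule.span Rᵐᵒᵖ {v} = V := by
        rcases hVatom.le_iff.1 ((Submodule.span_singleton_le_iff_mem v V).2 hvV) with h | h
        · rw [Submodule.span_singleton_eq_bot] at h
          exact absurd h hv0
        · exact h
      rw [← this]
      exact Submodule.fg_span_singleton v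
    · rintro _ ⟨s, hs, rfl⟩
      exact mul_mem_socle f (hVS hs)
    · rintro _ ⟨s, hs, rfl⟩
      have h1 : (⟨s, hs⟩ : rightSocle R) ∈ V.submoduleOf (rightSocle R) ⊔ W' := by
        rw [hW'.sup_eq_top]; exact Submodule.mem_top
      obtain ⟨a, ha, b, hb, hab⟩ := Submodule.mem_sup.1 h1
      refine ⟨a.1, ha, ?_⟩
      have h2 : a.1 + b.1 = s := congrArg Subtype.val hab
      rw [lm_apply, lm_apply, ← h2, mul_add, hF1 f hf b.1 ⟨b, hb, rfl⟩, add_zero]
  obtain ⟨c, rfl⟩ := Submodule.mem_span_singleton.1 (hVt hvV)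
  have := ht f hfB
  change f * (t * c.unop) = 0
  rw [← mul_assoc, this, zero_mul]

end Pool.Agent.K6.H19.KT
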