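import Pool.Agent.K6.H19.KT.Nil

set_option autoImplicit false

/-!
# Semilocal rings such that the ideals in the right socle meet the left annihilator of the radical (helper19)
-/

namespace Pool.Agent.K6.H19.KT

universe u

variable {R : Type u} [Ring R]

/-- Every nonzero two-sided ideal contained in the right socle contains an element `t ≠ 0` with
`J(R) t = 0`. -/
def IdealsInSocleMeetKilled (R : Type u) [Ring R] : Prop :=
  ∀ C : Submodule Rᵐᵒᵖ R, C ≤ rightSocle R → IsNonzeroIdeal C →
    ∃ t ∈ C, t ≠ 0 ∧ ∀ j ∈ Ring.jacobson R, j * t = 0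

theorem killed_of_meet (h : IdealsInSocleMeetKilled R) : Killed R := by
  intro C hCst hC0
  obtain ⟨t, ⟨x, hx, rfl⟩, ht0, ht⟩ := h (C.map (rightSocle R).subtype)
    (by rintro _ ⟨x, -, rfl⟩; exact x.2) (isNonzeroIdeal_map hC0 hCst)
  exact ⟨x, hx, fun h0 => ht0 (by rw [h0]; rfl), ht⟩

theorem killed_of_nilpotent [IsSemisimpleRing (R ⧸ Ring.jacobson R)] (hT : RightCyclicTight R)
    (hN : NilpotentOnSocle R) : Killed R :=
  fun C hCst hC0 => exists_mem_killed hN (socle_noetherian hT hN) C hCst hC0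

end Pool.Agent.K6.H19.KT
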