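import Pool.Agent.K6.H19.KT.Kill

set_option autoImplicit false

/-!
# Semilocal rings with a nil radical and a countable right socle (helper19)
-/

namespace Pool.Agent.K6.H19.KT

open MulOpposite

universe u v

variable {R : Type u} [Ring R]

/-- Every element of the Jacobson radical is locally nilpotent on the right socle. -/
def NilOnSocle (R : Type u) [Ring R] : Prop :=
  ∀ j ∈ Ring.jacobson R, ∀ s ∈ rightSocle R, ∃ n : ℕ, j ^ n * s = 0

theorem lmS_mul (a b : R) (s : rightSocle R) : lmS (a * b) s = lmS a (lmS b s) :=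
  Subtype.ext (by simp only [lmS_coe, mul_assoc])

theorem lmS_one (s : rightSocle R) : lmS 1 s = s := Subtype.ext (by rw [lmS_coe, one_mul])

/-- The submodule generated by the left multiples of `X`. -/
def gen (X : Submodule Rᵐᵒᵖ (rightSocle R)) : Submodule Rᵐᵒᵖ (rightSocle R) := ⨆ r : R, X.map (lmS r)

theorem le_gen (X : Submodule Rᵐᵒᵖ (rightSocle R)) : X ≤ gen X := by
  intro x hx
  exact (le_iSup (fun r : R => X.map (lmS r)) 1) ⟨x, hx, lmS_one x⟩

theorem gen_stable (X : Submodule Rᵐᵒᵖ (rightSocle R)) : ∀ r : R, ∀ z ∈ gen X, lmS r z ∈ gen X := by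
  intro r
  have : gen X ≤ (gen X).comap (lmS r) := by
    refine iSup_le fun a => ?_
    rintro _ ⟨z, hz, rfl⟩
    change lmS r (lmS a z) ∈ gen X
    rw [← lmS_mul]
    exact (le_iSup (fun r : R => X.map (lmS r)) (r * a)) ⟨z, hz, rfl⟩
  exact fun z hz => this hz

theorem gen_le {X C : Submodule Rᵐᵒᵖ (rightSocle R)} (hXC : X ≤ C)
    (hC : ∀ r : R, ∀ z ∈ C, lmS r z ∈ C) : gen X ≤ C := by
  refine iSup_le fun a => ?_
  rintro _ ⟨z, hz, rfl⟩
  exact hC a z (hXC hz)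

/-- The main lemma: there is no stable submodule `B` without elements killed by the radical for which there
is a homomorphism to a simple module which is nonzero on all nonzero stable submodules of `B`. -/
theorem false_of_functional (hT : RightCyclicTight R) (hnil : NilOnSocle R)
    (B : Submodule Rᵐᵒᵖ (rightSocle R)) (hBst : ∀ r : R, ∀ z ∈ B, lmS r z ∈ B)
    (hBJ : ∀ t ∈ B, t ≠ 0 → ∃ j ∈ Ring.jacobson R, lmS j t ≠ 0)
    {W : Type v} [AddCommGroup W] [Module Rᵐᵒᵖ W] [IsSimpleModule Rᵐᵒᵖ W]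
    (θ : W →ₗ[Rᵐᵒᵖ] rightSocle R) (hθB : ∀ w, θ w ∈ B)
    (L : rightSocle R →ₗ[Rᵐᵒᵖ] W) (hLθ : ∀ w, L (θ w) = w)
    (hL : ∀ X : Submodule Rᵐᵒᵖ (rightSocle R), X ≤ B → (∀ r : R, ∀ z ∈ X, lmS r z ∈ X) → X ≠ ⊥ →
      ∃ x ∈ X, L x ≠ 0) : False := by
  have hnt := IsSimpleModule.nontrivial Rᵐᵒᵖ W
  obtain ⟨w₀, hw₀⟩ := exists_ne (0 : W)
  obtain ⟨F, hF1, hF2⟩ := starS hT ((LinearMap.ker L).map (rightSocle R).subtype)
  have hF3 : ∃ f ∈ F, lmS f (θ w₀) ≠ 0 := by
    by_contra hcon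
    push Not at hcon
    obtain ⟨y, hy, hyx⟩ := hF2 (θ w₀).1 (θ w₀).2 fun f hf => congrArg Subtype.val (hcon f hf)
    have h1 : y = θ w₀ := Subtype.ext hyx
    rw [h1] at hy
    have h2 : L (θ w₀) = 0 := LinearMap.mem_ker.1 hy
    rw [hLθ] at h2
    exact hw₀ h2
  obtain ⟨f, hf, hf0⟩ := hF3
  set φ : W →ₗ[Rᵐᵒᵖ] rightSocle R := lmS f ∘ₗ θ with hφ
  have hfs : ∀ s, lmS f s = φ (L s) := by
    intro s
    have h1 : s - θ (L s) ∈ LinearMap.ker L := by
      rw [LinearMap.mem_ker, map_sub, hLθ, sub_self]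
    have h2 : lmS f (s - θ (L s)) = 0 := Subtype.ext (hF1 f hf _ ⟨_, h1, rfl⟩)
    rw [map_sub, sub_eq_zero] at h2
    exact h2
  -- an element which moves the image of `φ` into `B`
  have hr : ∃ r : R, (∀ w, lmS r (φ w) ∈ B) ∧ ∃ w, lmS r (φ w) ≠ 0 := by
    by_cases h : ∀ w, φ w ∈ B
    · exact ⟨1, fun w => by rw [lmS_one]; exact h w, w₀, by rw [lmS_one]; exact hf0⟩
    obtain ⟨F₁, hG1, hG2⟩ := starS hT ((LinearMap.range (φ + θ)).map (rightSocle R).subtype)
    have h1 : ∀ g ∈ F₁, ∀ w, lmS g (φ w) = -lmS g (θ w) := by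
      intro g hg w
      have h2 : lmS g ((φ + θ) w) = 0 := Subtype.ext (hG1 g hg _ ⟨_, ⟨w, rfl⟩, rfl⟩)
      rw [LinearMap.add_apply, map_add] at h2
      exact eq_neg_of_add_eq_zero_left h2
    have h3 : ∃ g ∈ F₁, lmS g (φ w₀) ≠ 0 := by
      by_contra hcon
      push Not at hcon
      obtain ⟨y, ⟨w', hw'⟩, hyx⟩ := hG2 (φ w₀).1 (φ w₀).2 fun g hg =>
        congrArg Subtype.val (hcon g hg)
      have h4 : (φ + θ) w' = φ w₀ := by rw [hw']; exact Subtype.ext hyx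
      have h5 : φ (w₀ - w') = θ w' := by
        rw [map_sub, ← h4, LinearMap.add_apply]; abel
      rcases eq_bot_or_eq_top (B.comap φ) with h6 | h6
      · have h7 : w₀ - w' ∈ B.comap φ := by
          change φ (w₀ - w') ∈ B
          rw [h5]; exact hθB w'
        rw [h6, Submodule.mem_bot] at h7
        rw [h7, map_zero] at h5
        have h8 : w' = 0 := by rw [← hLθ w', ← h5, map_zero]
        rw [h8, sub_zero] at h7
        exact hw₀ h7
      · exact h fun w => by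
          have : w ∈ B.comap φ := by rw [h6]; exact Submodule.mem_top
          exact this
    obtain ⟨g, hg, hg0⟩ := h3
    exact ⟨g, fun w => by rw [h1 g hg]; exact B.neg_mem (hBst g _ (hθB w)), w₀, hg0⟩
  obtain ⟨r, hrB, w₁, hw₁⟩ := hr
  obtain ⟨j, hj, hj0⟩ := hBJ _ (hrB w₁) hw₁
  set ψ : W →ₗ[Rᵐᵒᵖ] rightSocle R := lmS j ∘ₗ lmS r ∘ₗ φ with hψ
  have hψB : ∀ w, ψ w ∈ B := fun w => hBst j _ (hrB w)
  have hg : ∀ s, lmS (j * r * f) s = ψ (L s) := by
    intro s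
    rw [lmS_mul, lmS_mul, hfs]
    rfl
  have hkill : ∀ r' : R, ∀ w, L (lmS r' (ψ w)) = 0 := by
    intro r' w
    by_contra hne
    set μ : W →ₗ[Rᵐᵒᵖ] W := L ∘ₗ lmS r' ∘ₗ ψ with hμ
    have hμinj : Function.Injective μ := LinearMap.injective_of_ne_zero (fun h0 => by
      apply hne
      exact LinearMap.congr_fun h0 w)
    have hit : ∀ n : ℕ, ∀ w : W, lmS ((r' * (j * r * f)) ^ n) (lmS r' (ψ w)) =
        lmS r' (ψ (μ^[n] w)) := by
      intro n
      induction n with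
      | zero => intro w; rw [pow_zero, lmS_one]; rfl
      | succ n ih =>
        intro w
        rw [pow_succ, lmS_mul, lmS_mul r', hg, Function.iterate_succ_apply, ← ih]
        rfl
    have hJ : r' * (j * r * f) ∈ Ring.jacobson R :=
      (Ring.jacobson R).mul_mem_left _ ((Ring.jacobson R).mul_mem_right _
        ((Ring.jacobson R).mul_mem_right _ hj))
    obtain ⟨n, hn⟩ := hnil _ hJ (lmS r' (ψ w)).1 (lmS r' (ψ w)).2
    have h1 : lmS ((r' * (j * r * f)) ^ n) (lmS r' (ψ w)) = 0 := Subtype.ext hn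
    rw [hit] at h1
    have h2 : μ (μ^[n] w) = 0 := by
      change L (lmS r' (ψ (μ^[n] w))) = 0
      rw [h1, map_zero]
    have h3 : μ^[n + 1] w = 0 := by rw [Function.iterate_succ_apply']; exact h2
    have h4 : μ^[n + 1] (0 : W) = 0 := by
      clear h3 h2 h1 hn
      induction n with
      | zero => simp
      | succ n ih => rw [Function.iterate_succ_apply', ih, map_zero]
    have h5 : w = 0 := hμinj.iterate (n + 1) (h3.trans h4.symm)
    exact hne (by rw [h5]; simp)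
  have hX : gen (LinearMap.range ψ) ≤ LinearMap.ker L := by
    refine iSup_le fun a => ?_
    rintro _ ⟨_, ⟨w, rfl⟩, rfl⟩
    exact hkill a w
  have hXB : gen (LinearMap.range ψ) ≤ B := gen_le (by rintro _ ⟨w, rfl⟩; exact hψB w) hBst
  have hX0 : gen (LinearMap.range ψ) ≠ ⊥ := by
    refine (Submodule.ne_bot_iff _).2 ⟨ψ w₁, le_gen _ ⟨w₁, rfl⟩, hj0⟩
  obtain ⟨x, hx, hx0⟩ := hL _ hXB (gen_stable _) hX0
  exact hx0 (hX hx)

section generic

variable {A M N P : Type*} [Ring A] [AddCommGroup M] [Module A M] [AddCommGroup N] [Module A N]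
  [AddCommGroup P] [Module A P]

theorem inj_of_ne (hM : IsSimpleModule A M) (f : M →ₗ[A] N) (hf : f ≠ 0) : Function.Injective f :=
  LinearMap.injective_of_ne_zero hf

theorem inj_of_ker (f : M →ₗ[A] N) (hf : ∀ x, f x = 0 → x = 0) : Function.Injective f :=
  (injective_iff_map_eq_zero f).2 hf

theorem ext_prop (hM : IsSemisimpleModule A M) (f : N →ₗ[A] M) (hf : Function.Injective f)
    (g : N →ₗ[A] P) : ∃ h : M →ₗ[A] P, ∀ x, h (f x) = g x := by
  obtain ⟨h, hh⟩ := IsSemisimpleModule.extension_property f hf g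
  exact ⟨h, fun x => LinearMap.congr_fun hh x⟩

theorem artinian_of_fg (hM : IsSemisimpleModule A M) (X : Submodule A M) (h : X.FG) :
    IsArtinian A X := by
  have : Module.Finite A X := Module.Finite.iff_fg.2 h
  infer_instance

theorem noetherian_of_fg' (hM : IsSemisimpleModule A M) (X : Submodule A M) (h : X.FG) :
    IsNoetherian A X := by
  have : Module.Finite A X := Module.Finite.iff_fg.2 h
  infer_instance

theorem fg_of_le_fg (hM : IsSemisimpleModule A M) (X Y : Submodule A M) (h : X.FG) (hYX : Y ≤ X) :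
    Y.FG := by
  have := noetherian_of_fg' hM X h
  have h2 : IsNoetherian A Y := isNoetherian_of_le hYX
  exact Module.Finite.iff_fg.1 inferInstance

theorem range_fg (hM : IsSimpleModule A M) (f : M →ₗ[A] N) : (LinearMap.range f).FG := by
  have hnt := IsSimpleModule.nontrivial A M
  obtain ⟨w, hw⟩ := exists_ne (0 : M)
  have h1 : Submodule.span A {w} = ⊤ := by
    rcases eq_bot_or_eq_top (Submodule.span A {w}) with h | h
    · exact absurd (Submodule.span_singleton_eq_bot.1 h) hw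
    · exact h
  rw [LinearMap.range_eq_map, ← h1]
  exact (Submodule.fg_span_singleton w).map f

end generic

/-- The case of a minimal stable submodule. -/
theorem false_of_minimal (hT : RightCyclicTight R) (hnil : NilOnSocle R)
    (B : Submodule Rᵐᵒᵖ (rightSocle R)) (hBst : ∀ r : R, ∀ z ∈ B, lmS r z ∈ B) (hB0 : B ≠ ⊥)
    (hBJ : ∀ t ∈ B, t ≠ 0 → ∃ j ∈ Ring.jacobson R, lmS j t ≠ 0)
    (hmin : ∀ X : Submodule Rᵐᵒᵖ (rightSocle R), X ≤ B → (∀ r : R, ∀ z ∈ X, lmS r z ∈ X) → X ≠ ⊥ →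
      B ≤ X) : False := by
  have hss := socle_semisimple (R := R)
  have hss' : IsSemisimpleModule Rᵐᵒᵖ B := inferInstance
  obtain ⟨W, hWB, hW⟩ := (IsSemisimpleModule.eq_bot_or_exists_simple_le B).resolve_left hB0
  obtain ⟨W', hW'⟩ := exists_isCompl W
  have hnt := IsSimpleModule.nontrivial Rᵐᵒᵖ W
  obtain ⟨w₀, hw₀⟩ := exists_ne (0 : W)
  refine false_of_functional hT hnil B hBst hBJ W.subtype (fun w => hWB w.2)
    (Submodule.projectionOnto W W' hW') (fun w => Submodule.projectionOnto_apply_left hW' w) ?_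
  intro X hXB hXst hX0
  refine ⟨w₀.1, hmin X hXB hXst hX0 (hWB w₀.2), ?_⟩
  rw [Submodule.projectionOnto_apply_left hW' w₀]
  exact hw₀

/-- There is no finitely generated stable submodule without elements killed by the radical. -/
theorem false_of_fg (hT : RightCyclicTight R) (hnil : NilOnSocle R)
    (X : Submodule Rᵐᵒᵖ (rightSocle R)) (hXst : ∀ r : R, ∀ z ∈ X, lmS r z ∈ X) (hX0 : X ≠ ⊥)
    (hXJ : ∀ t ∈ X, t ≠ 0 → ∃ j ∈ Ring.jacobson R, lmS j t ≠ 0) (hfg : X.FG) : False := by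
  have hss := socle_semisimple (R := R)
  have hart : IsArtinian Rᵐᵒᵖ X := artinian_of_fg hss X hfg
  have hwf0 : WellFoundedLT (Submodule Rᵐᵒᵖ X) := hart
  have hwf : WellFounded (InvImage (· < ·)
      (fun Y : Submodule Rᵐᵒᵖ (rightSocle R) => Y.comap X.subtype)) :=
    InvImage.wf _ (wellFounded_lt (α := Submodule Rᵐᵒᵖ X))
  obtain ⟨B, ⟨hBX, hBst, hB0⟩, hmin⟩ := hwf.has_min
    {Y | Y ≤ X ∧ (∀ r : R, ∀ z ∈ Y, lmS r z ∈ Y) ∧ Y ≠ ⊥} ⟨X, le_rfl, hXst, hX0⟩
  refine false_of_minimal hT hnil B hBst hB0 (fun t ht => hXJ t (hBX ht)) ?_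
  intro Y hYB hYst hY0
  by_contra hnle
  refine hmin Y ⟨hYB.trans hBX, hYst, hY0⟩ ?_
  refine lt_of_le_of_ne (Submodule.comap_mono hYB) fun heq => hnle ?_
  intro b hb
  have heq' : Y.comap X.subtype = B.comap X.subtype := heq
  have h1 : (⟨b, hBX hb⟩ : X) ∈ B.comap X.subtype := hb
  rw [← heq'] at h1
  exact h1

/-- The step of the construction: a copy of the simple module `W` in a given stable submodule which meets a
given finitely generated submodule trivially. -/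
theorem exists_copy {W : Type v} [AddCommGroup W] [Module Rᵐᵒᵖ W] [IsSimpleModule Rᵐᵒᵖ W]
    (ι : W →ₗ[Rᵐᵒᵖ] rightSocle R)
    (D : Submodule Rᵐᵒᵖ (rightSocle R)) (hDW : D ≤ gen (LinearMap.range ι))
    (A : Submodule Rᵐᵒᵖ (rightSocle R)) (hDA : ¬ D ≤ A) :
    ∃ θ : W →ₗ[Rᵐᵒᵖ] rightSocle R, (∀ w, θ w ∈ D) ∧ ∀ w, θ w ∈ A → w = 0 := by
  have hss := socle_semisimple (R := R)
  have hZ : ∃ Z : Submodule Rᵐᵒᵖ (rightSocle R), IsSimpleModule Rᵐᵒᵖ Z ∧ Z ≤ D ∧ ¬ Z ≤ A := by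
    by_contra hcon
    push Not at hcon
    refine hDA ?_
    rw [← IsSemisimpleModule.sSup_simples_le D]
    exact sSup_le fun Z hZ => hcon Z hZ.1 hZ.2
  obtain ⟨Z, hZs, hZD, hZA⟩ := hZ
  obtain ⟨Z', hZ'⟩ := exists_isCompl Z
  let p := Submodule.projectionOnto Z Z' hZ'
  have hp : ∀ z : Z, p z.1 = z := fun z => Submodule.projectionOnto_apply_left hZ' z
  have hex : ∃ r : R, p ∘ₗ lmS r ∘ₗ ι ≠ 0 := by
    by_contra hcon
    push Not at hcon
    have h1 : gen (LinearMap.range ι) ≤ LinearMap.ker p := by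
      refine iSup_le fun a => ?_
      rintro _ ⟨_, ⟨w, rfl⟩, rfl⟩
      exact LinearMap.congr_fun (hcon a) w
    have hnt := IsSimpleModule.nontrivial Rᵐᵒᵖ Z
    obtain ⟨z, hz⟩ := exists_ne (0 : Z)
    have h2 : p z.1 = 0 := LinearMap.mem_ker.1 (h1 (hDW (hZD z.2)))
    rw [hp] at h2
    exact hz h2
  obtain ⟨r, hr⟩ := hex
  have hinj : ∀ w, (p ∘ₗ lmS r ∘ₗ ι) w = 0 → w = 0 := by
    rcases eq_bot_or_eq_top (LinearMap.ker (p ∘ₗ lmS r ∘ₗ ι)) with h | h
    · intro w hw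
      have h1 : w ∈ LinearMap.ker (p ∘ₗ lmS r ∘ₗ ι) := LinearMap.mem_ker.2 hw
      rw [h, Submodule.mem_bot] at h1
      exact h1
    · exact absurd (LinearMap.ker_eq_top.1 h) hr
  refine ⟨Z.subtype ∘ₗ (p ∘ₗ lmS r ∘ₗ ι), fun w => hZD (Subtype.mem _), fun w hw => ?_⟩
  have hatom : IsAtom Z := isSimpleModule_iff_isAtom.1 hZs
  rcases hatom.le_iff.1 (inf_le_left : Z ⊓ A ≤ Z) with h | h
  · have h1 : ((p ∘ₗ lmS r ∘ₗ ι) w).1 ∈ Z ⊓ A := ⟨Subtype.mem _, hw⟩
    rw [h, Submodule.mem_bot] at h1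
    exact hinj w (Subtype.ext h1)
  · exact absurd (inf_eq_left.1 h) hZA

theorem false_of_countable_aux (hT : RightCyclicTight R) (hnil : NilOnSocle R)
    (C : Submodule Rᵐᵒᵖ (rightSocle R)) (hCst : ∀ r : R, ∀ z ∈ C, lmS r z ∈ C)
    (hCJ : ∀ t ∈ C, t ≠ 0 → ∃ j ∈ Ring.jacobson R, lmS j t ≠ 0) (hc : Countable C)
    {W : Type v} [AddCommGroup W] [Module Rᵐᵒᵖ W] [hW : IsSimpleModule Rᵐᵒᵖ W]
    (ι : W →ₗ[Rᵐᵒᵖ] rightSocle R) (hWC : ∀ w, ι w ∈ C) (hι : ∀ w, ι w = 0 → w = 0) : False := by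
  have hss := socle_semisimple (R := R)
  have hnfg : ∀ X : Submodule Rᵐᵒᵖ (rightSocle R), X ≤ C → (∀ r : R, ∀ z ∈ X, lmS r z ∈ X) → X ≠ ⊥ →
      ¬ X.FG := fun X hXC hXst hX0 hfg =>
    false_of_fg hT hnil X hXst hX0 (fun t ht => hCJ t (hXC ht)) hfg
  have hnt := IsSimpleModule.nontrivial Rᵐᵒᵖ W
  obtain ⟨w₀, hw₀⟩ := exists_ne (0 : W)
  set G := gen (LinearMap.range ι) with hG
  have hGst : ∀ r : R, ∀ z ∈ G, lmS r z ∈ G := gen_stable _
  have hBC : G ≤ C := gen_le (by rintro _ ⟨w, rfl⟩; exact hWC w) hCst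
  -- the nonzero elements of `G`
  let E := {x : rightSocle R // x ∈ G ∧ x ≠ 0}
  have hE : Countable E := by
    have : Function.Injective (fun x : E => (⟨x.1, hBC x.2.1⟩ : C)) := by
      intro x y hxy
      have h1 : x.1 = y.1 := by
        have := congrArg Subtype.val hxy
        exact this
      exact Subtype.ext h1
    exact this.countable
  have hEne : Nonempty E := ⟨⟨ι w₀, le_gen _ ⟨w₀, rfl⟩, fun h => hw₀ (hι w₀ h)⟩⟩
  obtain ⟨x, hx⟩ := exists_surjective_nat E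
  have hD : ∀ n, gen (Submodule.span Rᵐᵒᵖ {(x n).1}) ≤ G := fun n =>
    gen_le ((Submodule.span_singleton_le_iff_mem _ _).2 (x n).2.1) hGst
  have hstep : ∀ (A : {A : Submodule Rᵐᵒᵖ (rightSocle R) // A.FG}) (n : ℕ),
      ∃ θ : W →ₗ[Rᵐᵒᵖ] rightSocle R, (∀ w, θ w ∈ gen (Submodule.span Rᵐᵒᵖ {(x n).1})) ∧
        ∀ w, θ w ∈ A.1 → w = 0 := by
    intro A n
    refine exists_copy ι _ (hD n) A.1 fun hle => ?_
    refine hnfg _ ((hD n).trans hBC) (gen_stable _) ?_ (fg_of_le_fg hss A.1 _ A.2 hle)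
    exact (Submodule.ne_bot_iff _).2
      ⟨(x n).1, le_gen _ (Submodule.mem_span_singleton_self _), (x n).2.2⟩
  choose θ hθ1 hθ2 using hstep
  let A : ℕ → {A : Submodule Rᵐᵒᵖ (rightSocle R) // A.FG} := fun n =>
    Nat.rec ⟨⊥, Submodule.fg_bot⟩
      (fun n A => ⟨A.1 ⊔ LinearMap.range (θ A n), A.2.sup (range_fg hW _)⟩) n
  have hA1 : ∀ n, (A (n + 1)).1 = (A n).1 ⊔ LinearMap.range (θ (A n) n) := fun n => rfl
  have hAmono : Monotone fun n => (A n).1 := monotone_nat_of_le_succ fun n => by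
    rw [hA1]; exact le_sup_left
  let Θ : ℕ → W →ₗ[Rᵐᵒᵖ] rightSocle R := fun n => θ (A n) n
  have hΘA : ∀ m n w, m < n → Θ m w ∈ (A n).1 := by
    intro m n w hmn
    refine hAmono (Nat.succ_le_of_lt hmn) ?_
    change Θ m w ∈ (A (m + 1)).1
    rw [hA1]
    exact Submodule.mem_sup_right ⟨w, rfl⟩
  let Φ : (ℕ →₀ W) →ₗ[Rᵐᵒᵖ] rightSocle R := Finsupp.lsum ℕ Θ
  have hΦ : Function.Injective Φ := by
    refine (injective_iff_map_eq_zero Φ).2 fun a ha => ?_
    by_contra ha0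
    have hne : a.support.Nonempty := Finsupp.support_nonempty_iff.2 ha0
    set n := a.support.max' hne with hn
    have hmem : n ∈ a.support := Finset.max'_mem _ _
    have h1 : Φ a = 0 := ha
    rw [show Φ a = ∑ i ∈ a.support, Θ i (a i) from Finsupp.lsum_apply _ _ _] at h1
    rw [← Finset.add_sum_erase _ _ hmem] at h1
    have h2 : ∑ i ∈ a.support.erase n, Θ i (a i) ∈ (A n).1 := by
      refine Submodule.sum_mem _ fun i hi => hΘA i n _ ?_
      have h3 := Finset.mem_erase.1 hi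
      exact lt_of_le_of_ne (Finset.le_max' _ _ h3.2) h3.1
    have h3 : Θ n (a n) ∈ (A n).1 := by
      rw [eq_neg_of_add_eq_zero_left h1]
      exact (A n).1.neg_mem h2
    exact (Finsupp.mem_support_iff.1 hmem) (hθ2 (A n) n (a n) h3)
  obtain ⟨L, hL⟩ := ext_prop (A := Rᵐᵒᵖ) (M := rightSocle R) (N := ℕ →₀ W) (P := W) hss Φ hΦ
    (Finsupp.lsum ℕ (fun _ => (LinearMap.id : W →ₗ[Rᵐᵒᵖ] W)))
  have hLΘ : ∀ n w, L (Θ n w) = w := by
    intro n w
    have h1 := hL (Finsupp.single n w)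
    simpa [Φ] using h1
  refine false_of_functional hT hnil G hGst (fun t ht => hCJ t (hBC ht)) (Θ 0)
    (fun w => hD 0 (hθ1 _ _ w)) L (hLΘ 0) ?_
  intro X hXB hXst hX0
  obtain ⟨y, hy, hy0⟩ := (Submodule.ne_bot_iff _).1 hX0
  obtain ⟨n, hn⟩ := hx ⟨y, hXB hy, hy0⟩
  refine ⟨Θ n w₀, ?_, by rw [hLΘ]; exact hw₀⟩
  refine gen_le ((Submodule.span_singleton_le_iff_mem _ _).2 ?_) hXst (hθ1 (A n) n w₀)
  rw [hn]
  exact hy

/-- There is no countable stable submodule without elements killed by the radical. -/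
theorem false_of_countable (hT : RightCyclicTight R) (hnil : NilOnSocle R)
    (C : Submodule Rᵐᵒᵖ (rightSocle R)) (hCst : ∀ r : R, ∀ z ∈ C, lmS r z ∈ C) (hC0 : C ≠ ⊥)
    (hCJ : ∀ t ∈ C, t ≠ 0 → ∃ j ∈ Ring.jacobson R, lmS j t ≠ 0) (hc : Countable C) : False := by
  have hss := socle_semisimple (R := R)
  have hss' : IsSemisimpleModule Rᵐᵒᵖ C := inferInstance
  obtain ⟨W₁, hWC, hW⟩ := (IsSemisimpleModule.eq_bot_or_exists_simple_le C).resolve_left hC0
  exact false_of_countable_aux hT hnil C hCst hCJ hc (W := W₁) W₁.subtype (fun w => hWC w.2)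
    (fun w hw => Subtype.ext hw)

/-- `I` is a nonzero two-sided ideal. -/
def IsNonzeroIdeal (I : Submodule Rᵐᵒᵖ R) : Prop := I ≠ ⊥ ∧ ∀ r : R, ∀ x ∈ I, r * x ∈ I

/-- Every nonzero two-sided ideal contained in the right socle contains a minimal one. -/
def MinimalIdealsInSocle (R : Type u) [Ring R] : Prop :=
  ∀ C : Submodule Rᵐᵒᵖ R, C ≤ rightSocle R → IsNonzeroIdeal C →
    ∃ B : Submodule Rᵐᵒᵖ R, B ≤ C ∧ IsNonzeroIdeal B ∧
      ∀ D : Submodule Rᵐᵒᵖ R, D ≤ B → IsNonzeroIdeal D → D = B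

theorem isNonzeroIdeal_map {X : Submodule Rᵐᵒᵖ (rightSocle R)} (hX0 : X ≠ ⊥)
    (hXst : ∀ r : R, ∀ z ∈ X, lmS r z ∈ X) : IsNonzeroIdeal (X.map (rightSocle R).subtype) := by
  refine ⟨?_, ?_⟩
  · obtain ⟨x, hx, hx0⟩ := (Submodule.ne_bot_iff _).1 hX0
    exact (Submodule.ne_bot_iff _).2 ⟨x.1, ⟨x, hx, rfl⟩, fun h => hx0 (Subtype.ext h)⟩
  · rintro r _ ⟨x, hx, rfl⟩
    exact ⟨lmS r x, hXst r x hx, rfl⟩

/-- If the radical is nil and every nonzero ideal in the right socle contains a minimal one then every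
nonzero stable submodule contains elements killed by the radical. -/
theorem killed_of_minimal (hT : RightCyclicTight R) (hnil : NilOnSocle R)
    (hm : MinimalIdealsInSocle R) : Killed R := by
  intro C hCst hC0
  by_contra hcon
  push Not at hcon
  have hCJ : ∀ t ∈ C, t ≠ 0 → ∃ j ∈ Ring.jacobson R, lmS j t ≠ 0 := by
    intro t ht ht0
    obtain ⟨j, hj, hj0⟩ := hcon t ht ht0
    exact ⟨j, hj, fun h => hj0 (congrArg Subtype.val h)⟩
  obtain ⟨B, hBC, hB, hmin⟩ := hm (C.map (rightSocle R).subtype)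
    (by rintro _ ⟨x, -, rfl⟩; exact x.2) (isNonzeroIdeal_map hC0 hCst)
  have hBS : B ≤ rightSocle R := fun x hx => by
    obtain ⟨y, -, rfl⟩ := hBC hx
    exact y.2
  have hBC' : B.comap (rightSocle R).subtype ≤ C := by
    intro x hx
    obtain ⟨y, hy, hyx⟩ := hBC (show x.1 ∈ B from hx)
    rwa [← (Subtype.ext hyx : y = x)]
  refine false_of_minimal hT hnil (B.comap (rightSocle R).subtype)
    (fun r z hz => hB.2 r z.1 hz) ?_ (fun t ht => hCJ t (hBC' ht)) ?_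
  · obtain ⟨x, hx, hx0⟩ := (Submodule.ne_bot_iff _).1 hB.1
    exact (Submodule.ne_bot_iff _).2 ⟨⟨x, hBS hx⟩, hx, fun h => hx0 (congrArg Subtype.val h)⟩
  · intro X hXB hXst hX0
    have h1 := hmin (X.map (rightSocle R).subtype) (by
      rintro _ ⟨x, hx, rfl⟩
      exact hXB hx) (isNonzeroIdeal_map hX0 hXst)
    intro b hb
    have h2 : b.1 ∈ X.map (rightSocle R).subtype := by rw [h1]; exact hb
    obtain ⟨y, hy, hyb⟩ := h2
    rwa [← (Subtype.ext hyb : y = b)]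

/-- If the radical is nil and the right socle is countable then every nonzero stable submodule contains
elements killed by the radical. -/
theorem killed_of_countable (hT : RightCyclicTight R) (hnil : NilOnSocle R)
    (hc : Countable (rightSocle R)) : Killed R := by
  intro C hCst hC0
  by_contra hcon
  push Not at hcon
  refine false_of_countable hT hnil C hCst hC0 (fun t ht ht0 => ?_) inferInstance
  obtain ⟨j, hj, hj0⟩ := hcon t ht ht0
  exact ⟨j, hj, fun h => hj0 (congrArg Subtype.val h)⟩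

end Pool.Agent.K6.H19.KT
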