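import Pool.Agent.K6.H19.KT.Semi

set_option autoImplicit false

/-!
# Left noetherian right Kasch right generalized `R`-tight rings (helper19)
-/

namespace Pool.Agent.K6.H19.KT

open MulOpposite

universe u

variable {R : Type u} [Ring R]

/-- The right socle is artinian, as the left annihilator is injective on its submodules. -/
theorem socle_artinian [IsNoetherianRing R] (hT : RightCyclicTight R) :
    IsArtinian Rᵐᵒᵖ (rightSocle R) := by
  have hanti : StrictAnti (fun T : Submodule Rᵐᵒᵖ (rightSocle R) =>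
      (lann (T.map (rightSocle R).subtype) : Submodule R R)) := by
    intro T T' hlt
    refine lt_of_le_of_ne (lann_anti (Submodule.map_mono hlt.le)) fun heq => hlt.not_ge ?_
    intro x hx
    obtain ⟨F, hF1, hF2⟩ := starS hT (T.map (rightSocle R).subtype)
    have heq' : lann (T'.map (rightSocle R).subtype) = lann (T.map (rightSocle R).subtype) := heq
    have h1 : ∀ f ∈ F, f ∈ lann (T'.map (rightSocle R).subtype) := by
      intro f hf
      rw [heq']
      exact fun t ht => hF1 f hf t ht
    obtain ⟨y, hy, hyx⟩ := hF2 x.1 x.2 fun f hf => h1 f hf x.1 ⟨x, hx, rfl⟩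
    rwa [← (Subtype.ext hyx : y = x)]
  have hn0 : IsNoetherian R R := inferInstance
  have hn : WellFoundedGT (Submodule R R) := inferInstance
  exact hanti.wellFoundedLT

theorem isUnit_one_add {j : R} (hj : j ∈ Ring.jacobson R) : IsUnit (1 + j) := by
  obtain ⟨z, hz⟩ := exists_left_inverse hj
  have h1 : z - 1 ∈ Ring.jacobson R := by
    have : z - 1 = -(z * j) := by
      rw [mul_add, mul_one] at hz
      rw [← hz]; abel
    rw [this]
    exact (Ring.jacobson R).neg_mem ((Ring.jacobson R).mul_mem_left z hj)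
  obtain ⟨z', hz'⟩ := exists_left_inverse h1
  rw [add_sub_cancel] at hz'
  have h2 : z' = 1 + j := by
    calc z' = z' * (z * (1 + j)) := by rw [hz, mul_one]
      _ = 1 + j := by rw [← mul_assoc, hz', one_mul]
  rw [h2] at hz'
  exact ⟨⟨1 + j, z, hz', hz⟩, rfl⟩

/-- The radical kills the right socle from the right. -/
theorem socle_mul_jacobson {s j : R} (hs : s ∈ rightSocle R) (hj : j ∈ Ring.jacobson R) :
    s * j = 0 := by
  let N : Submodule Rᵐᵒᵖ R :=
    { carrier := {s | ∀ j ∈ Ring.jacobson R, s * j = 0}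
      add_mem' := fun {a b} ha hb j hj => by rw [add_mul, ha j hj, hb j hj, add_zero]
      zero_mem' := fun j _ => zero_mul j
      smul_mem' := fun c a ha j hj => by
        change a * c.unop * j = 0
        rw [mul_assoc]
        exact ha _ ((Ring.jacobson R).mul_mem_left _ hj) }
  have : rightSocle R ≤ N := by
    refine sSup_le fun U hU x hx j hj => ?_
    by_contra h1
    have h2 : Submodule.span Rᵐᵒᵖ {x * j} = U := by
      have hle : Submodule.span Rᵐᵒᵖ {x * j} ≤ U := by
        rw [Submodule.span_singleton_le_iff_mem]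
        simpa using U.smul_mem (op j) hx
      rcases (hU : IsAtom U).le_iff.1 hle with h | h
      · rw [Submodule.span_singleton_eq_bot] at h
        exact absurd h h1
      · exact h
    rw [← h2] at hx
    obtain ⟨b, hb⟩ := Submodule.mem_span_singleton.1 hx
    have hb' : x * j * b.unop = x := by simpa using hb
    have hu : IsUnit (1 + -(j * b.unop)) :=
      isUnit_one_add ((Ring.jacobson R).neg_mem ((Ring.jacobson R).mul_mem_right _ hj))
    have h3 : x * (1 + -(j * b.unop)) = 0 := by
      rw [mul_add, mul_one, mul_neg, ← mul_assoc, hb', add_neg_cancel]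
    have h4 : x = 0 := hu.mul_left_eq_zero.1 h3
    exact h1 (by rw [h4, zero_mul])
  exact this hs j hj

/-- If `R` is right Kasch then the right annihilator of the right socle is the radical. -/
theorem mem_jacobson_of_socle (hK : RightKasch R) {r : R} (hr : ∀ s ∈ rightSocle R, s * r = 0) :
    r ∈ Ring.jacobson R := by
  have hright : ∀ r : R, (∀ s ∈ rightSocle R, s * r = 0) → ∃ b : R, (1 + r) * b = 1 := by
    intro r hr
    have h1 : (1 : R) ∈ Submodule.span Rᵐᵒᵖ {1 + r} := by
      by_contra h1
      obtain ⟨M, hM, hMc⟩ := exists_le_coatom _ h1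
      obtain ⟨x, hxS, hx0, hx⟩ := exists_right_killed hK M hMc
      have h2 := hx (1 + r) (hM (Submodule.mem_span_singleton_self _))
      rw [mul_add, hr x hxS, add_zero, mul_one] at h2
      exact hx0 h2
    obtain ⟨b, hb⟩ := Submodule.mem_span_singleton.1 h1
    exact ⟨b.unop, hb⟩
  have hleft : ∀ r : R, (∀ s ∈ rightSocle R, s * r = 0) → ∃ b : R, b * (1 + r) = 1 := by
    intro r hr
    obtain ⟨b, hb⟩ := hright r hr
    obtain ⟨c, hc⟩ := hright (-(r * b)) (fun s hs => by
      rw [mul_neg, ← mul_assoc, hr s hs, zero_mul, neg_zero])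
    have h1 : 1 + -(r * b) = b := by
      rw [add_mul, one_mul] at hb
      rw [← hb]; abel
    rw [h1] at hc
    have h2 : c = 1 + r := by
      calc c = (1 + r) * b * c := by rw [hb, one_mul]
        _ = 1 + r := by rw [mul_assoc, hc, mul_one]
    exact ⟨b, by rw [← h2]; exact hc⟩
  rw [← Ideal.jacobson_bot, Ideal.mem_jacobson_iff]
  intro y
  obtain ⟨b, hb⟩ := hleft (y * r) (fun s hs => by
    rw [← mul_assoc]
    exact hr _ (by simpa using (rightSocle R).smul_mem (op y) hs))
  refine ⟨b, ?_⟩
  rw [Ideal.mem_bot, mul_assoc, sub_eq_zero, ← hb, mul_add, mul_one, add_comm]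

/-- The right socle as a left ideal. -/
def socleIdeal (R : Type u) [Ring R] : Ideal R where
  carrier := rightSocle R
  add_mem' := fun ha hb => add_mem ha hb
  zero_mem' := zero_mem _
  smul_mem' := fun c _ hx => mul_mem_socle c hx

/-- If the right socle is a finitely generated left ideal of a right Kasch ring `R` then `R` is
semilocal. -/
theorem semilocal_of_fg (hK : RightKasch R) (hfg : (socleIdeal R).FG) :
    IsSemisimpleRing (R ⧸ Ring.jacobson R) := by
  have hss := socle_semisimple (R := R)
  obtain ⟨G, hG⟩ := hfg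
  have hGS : ∀ g : G, g.1 ∈ rightSocle R := by
    intro g
    have : g.1 ∈ socleIdeal R := by rw [← hG]; exact Submodule.subset_span g.2
    exact this
  let Ψ : R →ₗ[Rᵐᵒᵖ] (G → rightSocle R) := LinearMap.pi fun g =>
    LinearMap.codRestrict (rightSocle R) (lm g.1) (fun r => by
      simpa using (rightSocle R).smul_mem (op r) (hGS g))
  have hΨ : ∀ r : R, Ψ r = 0 ↔ r ∈ Ring.jacobson R := by
    intro r
    constructor
    · intro h
      have h1 : ∀ g ∈ G, g * r = 0 := by
        intro g hg
        have := congrFun h ⟨g, hg⟩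
        exact congrArg Subtype.val this
      let A : Ideal R :=
        { carrier := {s | s * r = 0}
          add_mem' := fun {a b} ha hb => by
            change (a + b) * r = 0
            rw [add_mul, show a * r = 0 from ha, show b * r = 0 from hb, add_zero]
          zero_mem' := zero_mul r
          smul_mem' := fun c a ha => by
            change c * a * r = 0
            rw [mul_assoc, show a * r = 0 from ha, mul_zero] }
      have hA : socleIdeal R ≤ A := by
        rw [← hG]
        exact Submodule.span_le.2 fun g hg => h1 g hg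
      exact mem_jacobson_of_socle hK fun s hs => hA hs
    · intro h
      funext g
      exact Subtype.ext (socle_mul_jacobson (hGS g) h)
  have hQ : IsSemisimpleModule Rᵐᵒᵖ (R ⧸ LinearMap.ker Ψ) := by
    have h1 : IsSemisimpleModule Rᵐᵒᵖ (G → rightSocle R) := inferInstance
    exact IsSemisimpleModule.of_injective ((LinearMap.ker Ψ).liftQ Ψ le_rfl)
      (LinearMap.ker_eq_bot.1 (Submodule.ker_liftQ_eq_bot _ _ _ le_rfl))
  let σ : Rᵐᵒᵖ →+* (R ⧸ Ring.jacobson R)ᵐᵒᵖ := RingHom.op (Ideal.Quotient.mk (Ring.jacobson R))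
  have hσ : Function.Surjective σ := by
    intro x
    obtain ⟨y, hy⟩ := Ideal.Quotient.mk_surjective x.unop
    exact ⟨op y, by
      change op (Ideal.Quotient.mk (Ring.jacobson R) y) = x
      rw [hy, op_unop]⟩
  have : RingHomSurjective σ := ⟨hσ⟩
  let f : R →ₛₗ[σ] (R ⧸ Ring.jacobson R)ᵐᵒᵖ :=
    { toFun := fun r => op (Ideal.Quotient.mk (Ring.jacobson R) r)
      map_add' := fun x y => by rw [map_add, op_add]
      map_smul' := fun c x => by
        change op (Ideal.Quotient.mk (Ring.jacobson R) (x * c.unop)) =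
          op (Ideal.Quotient.mk (Ring.jacobson R) c.unop) * op (Ideal.Quotient.mk (Ring.jacobson R) x)
        rw [map_mul, op_mul] }
  have hf : ∀ r : R, f r = 0 ↔ r ∈ Ring.jacobson R := by
    intro r
    change op (Ideal.Quotient.mk (Ring.jacobson R) r) = 0 ↔ _
    rw [op_eq_zero_iff, Ideal.Quotient.eq_zero_iff_mem]
  have hker : LinearMap.ker Ψ = LinearMap.ker f := by
    ext r
    rw [LinearMap.mem_ker, LinearMap.mem_ker, hΨ, hf]
  let e : (R ⧸ LinearMap.ker Ψ) →ₛₗ[σ] (R ⧸ Ring.jacobson R)ᵐᵒᵖ :=
    (LinearMap.ker Ψ).liftQ f hker.le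
  have he : Function.Bijective e := by
    constructor
    · exact LinearMap.ker_eq_bot.1 (Submodule.ker_liftQ_eq_bot _ _ _ hker.ge)
    · intro x
      obtain ⟨y, hy⟩ := Ideal.Quotient.mk_surjective x.unop
      refine ⟨(LinearMap.ker Ψ).mkQ y, ?_⟩
      change op (Ideal.Quotient.mk (Ring.jacobson R) y) = x
      rw [hy, op_unop]
  have h1 : IsSemisimpleRing (R ⧸ Ring.jacobson R)ᵐᵒᵖ :=
    (e.isSemisimpleModule_iff_of_bijective he).1 hQ
  exact isSemisimpleRing_mulOpposite_iff.1 h1

/-- The descending sequence `S, J S, J J S, ...`. -/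
def chain (R : Type u) [Ring R] : ℕ → Submodule Rᵐᵒᵖ (rightSocle R)
  | 0 => ⊤
  | n + 1 => ⨆ j : Ring.jacobson R, (chain R n).map (lmS j.1)

theorem chain_stable (n : ℕ) : ∀ r : R, ∀ z ∈ chain R n, lmS r z ∈ chain R n := by
  cases n with
  | zero => exact fun _ _ _ => Submodule.mem_top
  | succ n =>
    intro r
    have : chain R (n + 1) ≤ (chain R (n + 1)).comap (lmS r) := by
      refine iSup_le fun j => ?_
      rintro _ ⟨z, hz, rfl⟩
      have h1 : lmS (r * j.1) z ∈ chain R (n + 1) :=
        (le_iSup (fun j : Ring.jacobson R => (chain R n).map (lmS j.1))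
          ⟨r * j.1, (Ring.jacobson R).mul_mem_left r j.2⟩) ⟨z, hz, rfl⟩
      have h2 : lmS (r * j.1) z = lmS r (lmS j.1 z) :=
        Subtype.ext (by simp only [lmS_coe, mul_assoc])
      rw [h2] at h1
      exact h1
    exact fun z hz => this hz

theorem chain_succ_le (n : ℕ) : chain R (n + 1) ≤ chain R n := by
  refine iSup_le fun j => ?_
  rintro _ ⟨z, hz, rfl⟩
  exact chain_stable n j.1 z hz

theorem word_mem_chain (l : List R) (hl : ∀ f ∈ l, f ∈ Ring.jacobson R) (s : rightSocle R) :
    lmS l.prod s ∈ chain R l.length := by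
  induction l with
  | nil => exact Submodule.mem_top
  | cons f l ih =>
    have h1 := ih fun g hg => hl g (List.mem_cons_of_mem _ hg)
    have h2 : lmS (f :: l).prod s = lmS f (lmS l.prod s) :=
      Subtype.ext (by simp only [lmS_coe, List.prod_cons, mul_assoc])
    rw [h2, List.length_cons]
    exact (le_iSup (fun j : Ring.jacobson R => (chain R l.length).map (lmS j.1))
      ⟨f, hl f List.mem_cons_self⟩) ⟨_, h1, rfl⟩

/-- If `R` is left noetherian and the right socle is artinian then the radical is nilpotent on it. -/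
theorem nilpotentOnSocle [IsNoetherianRing R] (hart : IsArtinian Rᵐᵒᵖ (rightSocle R)) :
    NilpotentOnSocle R := by
  have hwf : WellFoundedLT (Submodule Rᵐᵒᵖ (rightSocle R)) := hart
  obtain ⟨n, hn⟩ := WellFounded.not_rel_apply_succ
    (r := ((· < ·) : Submodule Rᵐᵒᵖ (rightSocle R) → _ → Prop)) (chain R)
  have heq : chain R (n + 1) = chain R n := by
    by_contra hne
    exact hn (lt_of_le_of_ne (chain_succ_le n) hne)
  let N : Submodule R R :=
    { carrier := {x | ∃ z ∈ chain R n, z.1 = x}
      add_mem' := by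
        rintro _ _ ⟨z, hz, rfl⟩ ⟨w, hw, rfl⟩
        exact ⟨z + w, add_mem hz hw, rfl⟩
      zero_mem' := ⟨0, zero_mem _, rfl⟩
      smul_mem' := by
        rintro c _ ⟨z, hz, rfl⟩
        exact ⟨lmS c z, chain_stable n c z hz, rfl⟩ }
  have hN : N = ⊥ := by
    refine Submodule.FG.eq_bot_of_le_jacobson_smul (IsNoetherian.noetherian N) ?_
    rintro _ ⟨z, hz, rfl⟩
    rw [← heq] at hz
    refine Submodule.iSup_induction (fun j : Ring.jacobson R => (chain R n).map (lmS j.1))
      (motive := fun z => z.1 ∈ Ring.jacobson R • N) hz ?_ ?_ ?_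
    · rintro j _ ⟨w, hw, rfl⟩
      have : j.1 • w.1 ∈ Ring.jacobson R • N := Submodule.smul_mem_smul j.2 ⟨w, hw, rfl⟩
      exact this
    · exact zero_mem _
    · intro x y hx hy
      exact add_mem hx hy
  intro F hF
  refine ⟨n, fun l h1 h2 s hs => ?_⟩
  have h3 := word_mem_chain l (fun f hf => hF f (h2 f hf)) ⟨s, hs⟩
  rw [h1] at h3
  have h4 : l.prod * s ∈ N := ⟨_, h3, rfl⟩
  rw [hN] at h4
  simpa using h4

theorem leftNoetherian_semilocal [IsNoetherianRing R] (hK : RightKasch R) :
    IsSemisimpleRing (R ⧸ Ring.jacobson R) :=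
  semilocal_of_fg hK (IsNoetherian.noetherian (R := R) (M := R) (socleIdeal R))

end Pool.Agent.K6.H19.KT
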