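import Pool.Agent.K6.H19.KT.Main

set_option autoImplicit false

/-!
# Semilocal right Kasch right generalized `R`-tight rings (helper19)
-/

namespace Pool.Agent.K6.H19.KT

open MulOpposite

universe u

/-- For every finite subset `F` of the Jacobson radical of `R` there is `m` such that every product of `m`
elements of `F` kills the right socle from the left. -/
def NilpotentOnSocle (R : Type u) [Ring R] : Prop :=
  ∀ F : Finset R, (∀ f ∈ F, f ∈ Ring.jacobson R) → ∃ m : ℕ, ∀ l : List R, l.length = m →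
    (∀ f ∈ l, f ∈ F) → ∀ s ∈ rightSocle R, l.prod * s = 0

variable {R : Type u} [Ring R]

theorem socle_semisimple : IsSemisimpleModule Rᵐᵒᵖ (rightSocle R) := by
  have := isSemisimpleModule_biSup_of_isSemisimpleModule_submodule (R := Rᵐᵒᵖ) (M := R)
    (s := {J : Submodule Rᵐᵒᵖ R | IsAtom J}) (p := id) (fun J hJ => by
      have : IsSimpleModule Rᵐᵒᵖ J := isSimpleModule_iff_isAtom.2 hJ
      exact inferInstanceAs (IsSemisimpleModule Rᵐᵒᵖ J))
  have h2 : (⨆ i ∈ {J : Submodule Rᵐᵒᵖ R | IsAtom J}, id i) = rightSocle R := by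
    rw [rightSocle, sSup_eq_iSup]; rfl
  rwa [h2] at this

/-- `star` for a submodule of the socle and one of its complements. -/
theorem starS (hT : RightCyclicTight R) (T : Submodule Rᵐᵒᵖ R) :
    ∃ F : Finset R, (∀ f ∈ F, ∀ x ∈ T, f * x = 0) ∧
      ∀ x ∈ rightSocle R, (∀ f ∈ F, f * x = 0) → x ∈ T := by
  have := socle_semisimple (R := R)
  obtain ⟨W', hW'⟩ := exists_isCompl (T.submoduleOf (rightSocle R))
  obtain ⟨F, hF1, hF2⟩ := star hT (W'.map (rightSocle R).subtype) T (by
    rw [eq_bot_iff]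
    rintro x ⟨⟨y, hy, rfl⟩, hxT⟩
    have h1 : y ∈ T.submoduleOf (rightSocle R) ⊓ W' := ⟨hxT, hy⟩
    rw [hW'.inf_eq_bot, Submodule.mem_bot] at h1
    rw [Submodule.mem_bot, h1]
    rfl)
  refine ⟨F, hF1, fun x hx hx0 => ?_⟩
  have h1 : (⟨x, hx⟩ : rightSocle R) ∈ T.submoduleOf (rightSocle R) ⊔ W' := by
    rw [hW'.sup_eq_top]; exact Submodule.mem_top
  obtain ⟨a, ha, b, hb, hab⟩ := Submodule.mem_sup.1 h1
  have h2 : a.1 + b.1 = x := congrArg Subtype.val hab
  have h3 : b.1 = 0 := hF2 b.1 ⟨b, hb, rfl⟩ (fun f hf => by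
    have := hx0 f hf
    rwa [← h2, mul_add, hF1 f hf a.1 ha, zero_add] at this)
  rw [← h2, h3, add_zero]
  exact ha

/-- The left annihilator. -/
def lann (T : Submodule Rᵐᵒᵖ R) : Ideal R where
  carrier := {r | ∀ t ∈ T, r * t = 0}
  add_mem' := fun {a b} ha hb t ht => by rw [add_mul, ha t ht, hb t ht, add_zero]
  zero_mem' := fun t _ => zero_mul t
  smul_mem' := fun c a ha t ht => by rw [smul_eq_mul, mul_assoc, ha t ht, mul_zero]

theorem mem_lann {T : Submodule Rᵐᵒᵖ R} {r : R} : r ∈ lann T ↔ ∀ t ∈ T, r * t = 0 := Iff.rfl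

theorem lann_anti {T T' : Submodule Rᵐᵒᵖ R} (h : T ≤ T') : lann T' ≤ lann T :=
  fun _ hr t ht => hr t (h ht)

theorem noetherian_of_fg {T : Submodule Rᵐᵒᵖ R} (hT : T.FG) (hTS : T ≤ rightSocle R) :
    IsNoetherian Rᵐᵒᵖ T := by
  have := socle_semisimple (R := R)
  have : IsSemisimpleModule Rᵐᵒᵖ T :=
    IsSemisimpleModule.of_injective (Submodule.inclusion hTS) (Submodule.inclusion_injective hTS)
  have : Module.Finite Rᵐᵒᵖ T := Module.Finite.iff_fg.2 hT
  infer_instance

/-- The elements of the socle which are killed by all words of length `j` in `F`. -/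
def words (F : Finset R) (j : ℕ) : Submodule Rᵐᵒᵖ R where
  carrier := {s | s ∈ rightSocle R ∧
    ∀ l : List R, l.length = j → (∀ f ∈ l, f ∈ F) → l.prod * s = 0}
  add_mem' := fun {a b} ha hb => ⟨add_mem ha.1 hb.1, fun l h1 h2 => by
    rw [mul_add, ha.2 l h1 h2, hb.2 l h1 h2, add_zero]⟩
  zero_mem' := ⟨zero_mem _, fun l _ _ => mul_zero _⟩
  smul_mem' := fun c a ha => ⟨(rightSocle R).smul_mem c ha.1, fun l h1 h2 => by
    change l.prod * (a * c.unop) = 0
    rw [← mul_assoc, ha.2 l h1 h2, zero_mul]⟩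

theorem mem_words {F : Finset R} {j : ℕ} {s : R} : s ∈ words F j ↔ s ∈ rightSocle R ∧
    ∀ l : List R, l.length = j → (∀ f ∈ l, f ∈ F) → l.prod * s = 0 := Iff.rfl

theorem words_noetherian (F : Finset R) (T : Submodule Rᵐᵒᵖ R) (hT : IsNoetherian Rᵐᵒᵖ T)
    (h : ∀ x ∈ rightSocle R, (∀ f ∈ F, f * x = 0) → x ∈ T) (j : ℕ) :
    IsNoetherian Rᵐᵒᵖ (words F j) := by
  induction j with
  | zero =>
    have : Subsingleton (words F 0) := by
      refine ⟨fun a b => Subtype.ext ?_⟩
      have ha := a.2.2 [] rfl (by simp)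
      have hb := b.2.2 [] rfl (by simp)
      simp only [List.prod_nil, one_mul] at ha hb
      rw [ha, hb]
    infer_instance
  | succ j ih =>
    let Φ : words F (j + 1) →ₗ[Rᵐᵒᵖ] (F → words F j) := LinearMap.pi fun f =>
      LinearMap.codRestrict (words F j) ((lm f.1) ∘ₗ (words F (j + 1)).subtype) (fun s => by
        refine mem_words.2 ⟨mul_mem_socle _ s.2.1, fun l h1 h2 => ?_⟩
        have := s.2.2 (l ++ [f.1]) (by simp [h1]) (by
          intro g hg
          rcases List.mem_append.1 hg with hg | hg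
          · exact h2 g hg
          · rw [List.mem_singleton.1 hg]; exact f.2)
        rw [List.prod_append, List.prod_singleton, mul_assoc] at this
        exact this)
    have hk : ∀ s : LinearMap.ker Φ, s.1.1 ∈ T := by
      intro s
      refine h _ s.1.2.1 fun f hf => ?_
      have h1 : Φ s.1 = 0 := s.2
      have h2 := congrFun h1 ⟨f, hf⟩
      exact congrArg Subtype.val h2
    have : IsNoetherian Rᵐᵒᵖ (LinearMap.ker Φ) := by
      refine isNoetherian_of_injective (P := T) (LinearMap.codRestrict T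
        ((words F (j + 1)).subtype ∘ₗ (LinearMap.ker Φ).subtype) hk) ?_
      intro a b hab
      have h1 : a.1.1 = b.1.1 := by
        have := congrArg Subtype.val hab
        exact this
      exact Subtype.ext (Subtype.ext h1)
    have h2 : IsNoetherian Rᵐᵒᵖ (F → words F j) := inferInstance
    exact isNoetherian_of_range_eq_ker (R := Rᵐᵒᵖ) (M := LinearMap.ker Φ) (N := words F (j + 1))
      (P := F → words F j) (LinearMap.ker Φ).subtype Φ (Submodule.range_subtype _)

/-- The choice of a finitely generated submodule `T` of the socle such that the left annihilator of `T` has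
a minimal image in the ring modulo the radical. -/
theorem exists_min [IsSemisimpleRing (R ⧸ Ring.jacobson R)] :
    ∃ T : Submodule Rᵐᵒᵖ R, T.FG ∧ T ≤ rightSocle R ∧ ∀ T' : Submodule Rᵐᵒᵖ R, T'.FG →
      T' ≤ rightSocle R → T ≤ T' → ∀ e ∈ lann T, ∃ x ∈ lann T', x - e ∈ Ring.jacobson R := by
  have hart : IsArtinian (R ⧸ Ring.jacobson R) (R ⧸ Ring.jacobson R) := inferInstance
  obtain ⟨A, ⟨T, h1, h2, rfl⟩, hmin⟩ :=
    (wellFounded_lt (α := Submodule (R ⧸ Ring.jacobson R) (R ⧸ Ring.jacobson R))).has_min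
      {A | ∃ T : Submodule Rᵐᵒᵖ R, T.FG ∧ T ≤ rightSocle R ∧
        A = (lann T).map (Ideal.Quotient.mk (Ring.jacobson R))}
      ⟨_, ⊥, Submodule.fg_bot, bot_le, rfl⟩
  refine ⟨T, h1, h2, fun T' h1' h2' hTT' e he => ?_⟩
  have hle : (lann T').map (Ideal.Quotient.mk (Ring.jacobson R)) ≤
      (lann T).map (Ideal.Quotient.mk (Ring.jacobson R)) := Ideal.map_mono (lann_anti hTT')
  have heq : (lann T').map (Ideal.Quotient.mk (Ring.jacobson R)) =
      (lann T).map (Ideal.Quotient.mk (Ring.jacobson R)) := by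
    by_contra hne
    exact hmin _ ⟨T', h1', h2', rfl⟩ (lt_of_le_of_ne hle hne)
  have h3 : Ideal.Quotient.mk (Ring.jacobson R) e ∈
      (lann T').map (Ideal.Quotient.mk (Ring.jacobson R)) := by
    rw [heq]; exact Ideal.mem_map_of_mem _ he
  obtain ⟨x, hx, hxe⟩ := (Ideal.mem_map_iff_of_surjective _ Ideal.Quotient.mk_surjective).1 h3
  exact ⟨x, hx, (Ideal.Quotient.mk_eq_mk_iff_sub_mem _ _).1 hxe⟩

/-- `1 + j` with `j` in the Jacobson radical is left invertible. -/
theorem exists_left_inverse {j : R} (hj : j ∈ Ring.jacobson R) : ∃ z : R, z * (1 + j) = 1 := by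
  rw [← Ideal.jacobson_bot, Ideal.mem_jacobson_iff] at hj
  obtain ⟨z, hz⟩ := hj 1
  refine ⟨z, ?_⟩
  rw [Ideal.mem_bot, mul_one] at hz
  rw [mul_add, mul_one, add_comm]
  exact sub_eq_zero.1 hz

/-- The right socle is noetherian. -/
theorem socle_noetherian [IsSemisimpleRing (R ⧸ Ring.jacobson R)] (hT : RightCyclicTight R)
    (hN : NilpotentOnSocle R) : IsNoetherian Rᵐᵒᵖ (rightSocle R) := by
  obtain ⟨T, hT1, hT2, hT3⟩ := exists_min (R := R)
  obtain ⟨e', hidem, hspan⟩ := IsSemisimpleRing.ideal_eq_span_idempotent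
    ((lann T).map (Ideal.Quotient.mk (Ring.jacobson R)))
  have he' : e' ∈ (lann T).map (Ideal.Quotient.mk (Ring.jacobson R)) := by
    rw [hspan]; exact Ideal.mem_span_singleton_self _
  obtain ⟨e, he, rfl⟩ := (Ideal.mem_map_iff_of_surjective _ Ideal.Quotient.mk_surjective).1 he'
  -- `e - 1` is injective on the socle
  have hinj : ∀ s ∈ rightSocle R, (e - 1) * s = 0 → s = 0 := by
    intro s hs hes
    obtain ⟨x, hx, hxe⟩ := hT3 (T ⊔ Submodule.span Rᵐᵒᵖ {s}) (hT1.sup (Submodule.fg_span_singleton s))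
      (sup_le hT2 ((Submodule.span_singleton_le_iff_mem _ _).2 hs)) le_sup_left e he
    have h1 : x * s = 0 := hx s (Submodule.mem_sup_right (Submodule.mem_span_singleton_self s))
    obtain ⟨z, hz⟩ := exists_left_inverse hxe
    have h2 : (1 + (x - e)) * s = 0 := by
      have : (1 + (x - e)) * s = x * s - (e - 1) * s := by noncomm_ring
      rw [this, h1, hes, sub_zero]
    calc s = z * (1 + (x - e)) * s := by rw [hz, one_mul]
      _ = z * ((1 + (x - e)) * s) := by rw [mul_assoc]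
      _ = 0 := by rw [h2, mul_zero]
  -- a power of `e` kills the socle
  have hpow : ∃ m : ℕ, ∀ s ∈ rightSocle R, e ^ (m + 1) * s = 0 := by
    obtain ⟨m, hm⟩ := hN {(e - 1) * e} (by
      intro f hf
      rw [Finset.mem_singleton.1 hf, ← Ideal.Quotient.eq_zero_iff_mem, map_mul, map_sub, map_one, sub_mul,
        one_mul, hidem.eq, sub_self])
    refine ⟨m, fun s hs => ?_⟩
    have h1 := hm (List.replicate m ((e - 1) * e)) (by simp) (by
      intro f hf
      rw [List.eq_of_mem_replicate hf]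
      exact Finset.mem_singleton_self _) s hs
    have hcomm : Commute (e - 1) e := ((Commute.refl e).sub_left (Commute.one_left e))
    rw [List.prod_replicate, hcomm.mul_pow, mul_assoc] at h1
    have h2 : ∀ k : ℕ, (e - 1) ^ k * (e ^ m * s) = 0 → e ^ m * s = 0 := by
      intro k
      induction k with
      | zero => intro h; simpa using h
      | succ k ih =>
        intro h
        rw [pow_succ', mul_assoc] at h
        exact ih (hinj _ (mul_mem_socle _ (mul_mem_socle _ hs)) h)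
    rw [pow_succ', mul_assoc, h2 m h1, mul_zero]
  obtain ⟨m, hm⟩ := hpow
  obtain ⟨F, hF1, hF2⟩ := starS hT T
  classical
  let F' : Finset R := F.image fun f => f - f * e ^ (m + 1)
  have hF' : ∀ f ∈ F', f ∈ Ring.jacobson R := by
    intro g hg
    obtain ⟨f, hf, rfl⟩ := Finset.mem_image.1 hg
    have h1 : Ideal.Quotient.mk (Ring.jacobson R) f ∈
        (lann T).map (Ideal.Quotient.mk (Ring.jacobson R)) :=
      Ideal.mem_map_of_mem _ (fun t ht => hF1 f hf t ht)
    rw [hspan] at h1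
    obtain ⟨c, hc⟩ := Ideal.mem_span_singleton'.1 h1
    rw [← Ideal.Quotient.eq_zero_iff_mem, map_sub, map_mul, map_pow, ← hc, hidem.pow_succ_eq, mul_assoc,
      hidem.eq, sub_self]
  obtain ⟨k, hk⟩ := hN F' hF'
  have hw := words_noetherian F' T (noetherian_of_fg hT1 hT2) (by
    intro x hx hx0
    refine hF2 x hx fun f hf => ?_
    have := hx0 _ (Finset.mem_image_of_mem _ hf)
    rwa [sub_mul, mul_assoc, hm x hx, mul_zero, sub_zero] at this) k
  have : words F' k = rightSocle R :=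
    le_antisymm (fun s hs => hs.1) fun s hs => ⟨hs, fun l h1 h2 => hk l h1 h2 s hs⟩
  rwa [this] at hw

/-- Left multiplication on the socle. -/
def lmS (r : R) : rightSocle R →ₗ[Rᵐᵒᵖ] rightSocle R :=
  (lm r).restrict fun _ hx => mul_mem_socle r hx

theorem lmS_coe (r : R) (x : rightSocle R) : (lmS r x : R) = r * x.1 := rfl

/-- If `Z` lies in the span of `F Z` and long words in `F` kill the socle then `Z = 0`. -/
theorem eq_bot_of_le (F : Finset R) (Z : Submodule Rᵐᵒᵖ (rightSocle R))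
    (hZ : Z ≤ ⨆ f ∈ F, Z.map (lmS f)) (k : ℕ)
    (hk : ∀ l : List R, l.length = k → (∀ f ∈ l, f ∈ F) → ∀ z ∈ Z, l.prod * z.1 = 0) : Z = ⊥ := by
  induction k with
  | zero =>
    rw [eq_bot_iff]
    intro z hz
    have := hk [] rfl (by simp) z hz
    rw [List.prod_nil, one_mul] at this
    exact (Submodule.mem_bot _).2 (Subtype.ext this)
  | succ k ih =>
    refine ih fun l h1 h2 => ?_
    have h3 : Z ≤ LinearMap.ker (lmS l.prod) := by
      refine hZ.trans (iSup₂_le fun f hf => ?_)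
      rintro _ ⟨z, hz, rfl⟩
      have := hk (l ++ [f]) (by simp [h1]) (by
        intro g hg
        rcases List.mem_append.1 hg with hg | hg
        · exact h2 g hg
        · rw [List.mem_singleton.1 hg]; exact hf) z hz
      rw [List.prod_append, List.prod_singleton, mul_assoc] at this
      exact LinearMap.mem_ker.2 (Subtype.ext this)
    intro z hz
    exact congrArg Subtype.val (LinearMap.mem_ker.1 (h3 hz))

/-- A nonzero submodule of the socle which is stable under left multiplications contains a nonzero element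
killed by the radical from the left. -/
theorem exists_mem_killed (hN : NilpotentOnSocle R) (hn : IsNoetherian Rᵐᵒᵖ (rightSocle R))
    (Z : Submodule Rᵐᵒᵖ (rightSocle R)) (hst : ∀ r : R, ∀ z ∈ Z, lmS r z ∈ Z) (hZ : Z ≠ ⊥) :
    ∃ t ∈ Z, t ≠ 0 ∧ ∀ j ∈ Ring.jacobson R, j * t.1 = 0 := by
  have := socle_semisimple (R := R)
  have hfin : Module.Finite Rᵐᵒᵖ (rightSocle R) := inferInstance
  have hart : IsArtinian Rᵐᵒᵖ (rightSocle R) := inferInstance
  induction Z using (wellFounded_lt (α := Submodule Rᵐᵒᵖ (rightSocle R))).induction with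
  | _ Z ih =>
  set JZ : Submodule Rᵐᵒᵖ (rightSocle R) := ⨆ j : Ring.jacobson R, Z.map (lmS j.1) with hJZ
  have hle : JZ ≤ Z := iSup_le fun j => by
    rintro _ ⟨z, hz, rfl⟩
    exact hst _ z hz
  by_cases h0 : JZ = ⊥
  · obtain ⟨t, ht, ht0⟩ := (Submodule.ne_bot_iff _).1 hZ
    refine ⟨t, ht, ht0, fun j hj => ?_⟩
    have h1 : lmS j t ∈ JZ := (le_iSup (fun j : Ring.jacobson R => Z.map (lmS j.1)) ⟨j, hj⟩) ⟨t, ht, rfl⟩
    rw [h0, Submodule.mem_bot] at h1
    exact congrArg Subtype.val h1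
  have hstJ : ∀ r : R, ∀ z ∈ JZ, lmS r z ∈ JZ := by
    intro r
    have : JZ ≤ JZ.comap (lmS r) := by
      refine iSup_le fun j => ?_
      rintro _ ⟨z, hz, rfl⟩
      have h1 : lmS (r * j.1) z ∈ JZ :=
        (le_iSup (fun j : Ring.jacobson R => Z.map (lmS j.1))
          ⟨r * j.1, (Ring.jacobson R).mul_mem_left r j.2⟩) ⟨z, hz, rfl⟩
      have h2 : lmS (r * j.1) z = lmS r (lmS j.1 z) :=
        Subtype.ext (by simp only [lmS_coe, mul_assoc])
      rw [h2] at h1
      exact h1
    exact fun z hz => this hz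
  rcases hle.lt_or_eq with hlt | heq
  · obtain ⟨t, ht, h1, h2⟩ := ih JZ hlt hstJ h0
    exact ⟨t, hle ht, h1, h2⟩
  · exfalso
    have hc : IsCompactElement Z := (Submodule.fg_iff_compact Z).1 (IsNoetherian.noetherian Z)
    obtain ⟨s, hs⟩ := CompleteLattice.IsCompactElement.exists_finset_of_le_iSup _ hc
      (fun j : Ring.jacobson R => Z.map (lmS j.1)) (le_of_eq heq.symm)
    classical
    obtain ⟨m, hm⟩ := hN (s.image Subtype.val) (by
      intro f hf
      obtain ⟨j, -, rfl⟩ := Finset.mem_image.1 hf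
      exact j.2)
    refine hZ (eq_bot_of_le (s.image Subtype.val) Z (hs.trans ?_) m
      fun l h1 h2 z _ => hm l h1 h2 z.1 z.2)
    exact iSup₂_le fun j hj =>
      le_iSup₂_of_le (f := fun f (_ : f ∈ s.image Subtype.val) => Z.map (lmS f)) j.1
        (Finset.mem_image_of_mem _ hj) le_rfl

/-- The elements of the right socle which the radical kills from the left and `A` from the right. -/
def LL (A : Ideal R) : Submodule Rᵐᵒᵖ R where
  carrier := {t | t ∈ rightSocle R ∧ (∀ j ∈ Ring.jacobson R, j * t = 0) ∧ ∀ a ∈ A, t * a = 0}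
  add_mem' := fun {x y} hx hy => ⟨add_mem hx.1 hy.1,
    fun j hj => by rw [mul_add, hx.2.1 j hj, hy.2.1 j hj, add_zero],
    fun a ha => by rw [add_mul, hx.2.2 a ha, hy.2.2 a ha, add_zero]⟩
  zero_mem' := ⟨zero_mem _, fun j _ => mul_zero _, fun a _ => zero_mul _⟩
  smul_mem' := fun c x hx => ⟨(rightSocle R).smul_mem c hx.1,
    fun j hj => by
      change j * (x * c.unop) = 0
      rw [← mul_assoc, hx.2.1 j hj, zero_mul],
    fun a ha => by
      change x * c.unop * a = 0
      rw [mul_assoc]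
      exact hx.2.2 _ (A.mul_mem_left _ ha)⟩

/-- The elements of the right socle which `A` kills from the right. -/
def HH (A : Ideal R) : Submodule Rᵐᵒᵖ R where
  carrier := {t | t ∈ rightSocle R ∧ ∀ a ∈ A, t * a = 0}
  add_mem' := fun {x y} hx hy => ⟨add_mem hx.1 hy.1,
    fun a ha => by rw [add_mul, hx.2 a ha, hy.2 a ha, add_zero]⟩
  zero_mem' := ⟨zero_mem _, fun a _ => zero_mul _⟩
  smul_mem' := fun c x hx => ⟨(rightSocle R).smul_mem c hx.1,
    fun a ha => by
      change x * c.unop * a = 0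
      rw [mul_assoc]
      exact hx.2 _ (A.mul_mem_left _ ha)⟩

theorem mem_LL {A : Ideal R} {t : R} : t ∈ LL A ↔ t ∈ rightSocle R ∧
    (∀ j ∈ Ring.jacobson R, j * t = 0) ∧ ∀ a ∈ A, t * a = 0 := Iff.rfl

theorem mem_HH {A : Ideal R} {t : R} : t ∈ HH A ↔ t ∈ rightSocle R ∧ ∀ a ∈ A, t * a = 0 := Iff.rfl

theorem mul_mem_LL {A : Ideal R} (r : R) {t : R} (ht : t ∈ LL A) : r * t ∈ LL A := by
  refine ⟨mul_mem_socle r ht.1, fun j hj => ?_, fun a ha => ?_⟩
  · rw [← mul_assoc]
    exact ht.2.1 _ ((Ring.jacobson R).mul_mem_right r hj)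
  · rw [mul_assoc, ht.2.2 a ha, mul_zero]

/-- The map `A ↦` left annihilator of `LL A`. -/
def phi (A : Ideal R) : Ideal R := lann (LL A)

theorem LL_anti {A B : Ideal R} (h : A ≤ B) : LL B ≤ LL A :=
  fun _ ht => ⟨ht.1, ht.2.1, fun a ha => ht.2.2 a (h ha)⟩

theorem phi_mono {A B : Ideal R} (h : A ≤ B) : phi A ≤ phi B := lann_anti (LL_anti h)

theorem jacobson_le_phi (A : Ideal R) : Ring.jacobson R ≤ phi A := fun j hj _ ht => ht.2.1 j hj

theorem phi_mul_right (A : Ideal R) {x : R} (hx : x ∈ phi A) (r : R) : x * r ∈ phi A := by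
  intro t ht
  rw [mul_assoc]
  exact hx _ (mul_mem_LL r ht)

/-- A right ideal which does not contain `1` is contained in a maximal one. -/
theorem exists_le_coatom (I : Submodule Rᵐᵒᵖ R) (hI : (1 : R) ∉ I) :
    ∃ M : Submodule Rᵐᵒᵖ R, I ≤ M ∧ IsCoatom M := by
  obtain ⟨M, hIM, hmax⟩ := zorn_le_nonempty₀ {I : Submodule Rᵐᵒᵖ R | (1 : R) ∉ I} (by
    intro c hc hch y hy
    refine ⟨sSup c, ?_, fun z hz => le_sSup hz⟩
    intro hxc
    obtain ⟨J, hJ, hxJ⟩ := (Submodule.mem_sSup_of_directed ⟨y, hy⟩ hch.directedOn).1 hxc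
    exact hc hJ hxJ) I hI
  refine ⟨M, hIM, fun h => hmax.1 (by rw [h]; exact Submodule.mem_top), fun J hJ => ?_⟩
  have h1 : (1 : R) ∈ J := by
    by_contra h1
    exact hJ.not_ge (hmax.2 h1 hJ.le)
  rw [eq_top_iff]
  intro x _
  have := J.smul_mem (op x) h1
  simpa using this

/-- If `M` is a maximal right ideal of a right Kasch ring then `x M = 0` for some nonzero `x` in the
right socle. -/
theorem exists_right_killed (hK : RightKasch R) (M : Submodule Rᵐᵒᵖ R) (hM : IsCoatom M) :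
    ∃ x ∈ rightSocle R, x ≠ 0 ∧ ∀ m ∈ M, x * m = 0 := by
  obtain ⟨f, hf⟩ := hK (R ⧸ M) (isSimpleModule_iff_isCoatom.2 hM)
  have h1 : (1 : R) ∉ M := by
    intro h1
    refine hM.1 (eq_top_iff.2 fun x _ => ?_)
    have := M.smul_mem (op x) h1
    simpa using this
  have hx0 : f (M.mkQ 1) ≠ 0 := by
    intro h0
    have : M.mkQ 1 = 0 := hf (by rw [h0, map_zero])
    exact h1 ((Submodule.Quotient.mk_eq_zero M).1 this)
  have hmul : ∀ m : R, f (M.mkQ 1) * m = f (M.mkQ m) := by
    intro m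
    have : f (op m • M.mkQ 1) = op m • f (M.mkQ 1) := map_smul f _ _
    rw [← map_smul] at this
    simpa using this.symm
  refine ⟨f (M.mkQ 1), mem_socle_of fun c hc => ?_, hx0, fun m hm => ?_⟩
  · have hcM : c ∉ M := fun h => hc (by
      rw [hmul, (Submodule.Quotient.mk_eq_zero M).2 h |> (fun h => (h : M.mkQ c = 0)), map_zero])
    have htop : M ⊔ Submodule.span Rᵐᵒᵖ {c} = ⊤ := by
      refine hM.2 _ (lt_of_le_of_ne le_sup_left fun h => hcM ?_)
      rw [h]
      exact Submodule.mem_sup_right (Submodule.mem_span_singleton_self c)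
    have h2 : (1 : R) ∈ M ⊔ Submodule.span Rᵐᵒᵖ {c} := by rw [htop]; exact Submodule.mem_top
    obtain ⟨n, hn, w, hw, hnw⟩ := Submodule.mem_sup.1 h2
    obtain ⟨b, rfl⟩ := Submodule.mem_span_singleton.1 hw
    refine ⟨b.unop, ?_⟩
    have h3 : n + c * b.unop = 1 := by simpa using hnw
    have h4 : M.mkQ n = 0 := (Submodule.Quotient.mk_eq_zero M).2 hn
    have h5 : M.mkQ (c * b.unop) = M.mkQ 1 := by rw [← h3, map_add, h4, zero_add]
    rw [mul_assoc, hmul, h5]
  · have h4 : M.mkQ m = 0 := (Submodule.Quotient.mk_eq_zero M).2 hm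
    rw [hmul, h4, map_zero]

/-- If `A` and `B` are ideals which contain the radical and `B` is not contained in `A` then some element of
the right socle is killed by `A` from the right and not by `B`. -/
theorem exists_sep [IsSemisimpleRing (R ⧸ Ring.jacobson R)] (hK : RightKasch R) (A B : Ideal R)
    (hJA : Ring.jacobson R ≤ A)
    (hA : ∀ a ∈ A, ∀ r : R, a * r ∈ A) (hAB : ¬ B ≤ A) :
    ∃ x ∈ HH A, ∃ b ∈ B, x * b ≠ 0 := by
  by_contra hcon
  push Not at hcon
  obtain ⟨g', hidem, hspan⟩ := IsSemisimpleRing.ideal_eq_span_idempotent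
    (B.map (Ideal.Quotient.mk (Ring.jacobson R)))
  have hg' : g' ∈ B.map (Ideal.Quotient.mk (Ring.jacobson R)) := by
    rw [hspan]; exact Ideal.mem_span_singleton_self _
  obtain ⟨g, hg, rfl⟩ := (Ideal.mem_map_iff_of_surjective _ Ideal.Quotient.mk_surjective).1 hg'
  let A' : Submodule Rᵐᵒᵖ R :=
    { carrier := A
      add_mem' := fun ha hb => A.add_mem ha hb
      zero_mem' := A.zero_mem
      smul_mem' := fun c a ha => hA a ha c.unop }
  have h1 : (1 : R) ∈ A' ⊔ Submodule.span Rᵐᵒᵖ {1 - g} := by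
    by_contra h1
    obtain ⟨M, hM, hMc⟩ := exists_le_coatom _ h1
    obtain ⟨x, hxS, hx0, hx⟩ := exists_right_killed hK M hMc
    have hxA : x ∈ HH A := ⟨hxS, fun a ha => hx a (hM (Submodule.mem_sup_left (show a ∈ A' from ha)))⟩
    have h2 := hcon x hxA g hg
    have h3 := hx (1 - g) (hM (Submodule.mem_sup_right (Submodule.mem_span_singleton_self _)))
    rw [mul_sub, h2, sub_zero, mul_one] at h3
    exact hx0 h3
  obtain ⟨a, ha, w, hw, haw⟩ := Submodule.mem_sup.1 h1
  obtain ⟨b, rfl⟩ := Submodule.mem_span_singleton.1 hw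
  have h2 : a + (1 - g) * b.unop = 1 := haw
  have h3 : g - g * a ∈ Ring.jacobson R := by
    have h4 : g - g * a = (g - g * g) * b.unop := by
      calc g - g * a = g * (a + (1 - g) * b.unop) - g * a := by rw [h2, mul_one]
        _ = (g - g * g) * b.unop := by noncomm_ring
    rw [h4, ← Ideal.Quotient.eq_zero_iff_mem, map_mul, map_sub, map_mul, hidem.eq, sub_self, zero_mul]
  have hgA : g ∈ A := by
    have := A.add_mem (hJA h3) (A.mul_mem_left g ha)
    rwa [sub_add_cancel] at this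
  refine hAB fun y hy => ?_
  have h5 : Ideal.Quotient.mk (Ring.jacobson R) y ∈ B.map (Ideal.Quotient.mk (Ring.jacobson R)) :=
    Ideal.mem_map_of_mem _ hy
  rw [hspan] at h5
  obtain ⟨c, hc⟩ := Ideal.mem_span_singleton'.1 h5
  obtain ⟨c, rfl⟩ := Ideal.Quotient.mk_surjective c
  have h6 : y - c * g ∈ Ring.jacobson R := by
    rw [← Ideal.Quotient.eq_zero_iff_mem, map_sub, map_mul, hc, sub_self]
  have := A.add_mem (hJA h6) (A.mul_mem_left c hgA)
  rwa [sub_add_cancel] at this

/-- `phi` is strictly monotone on the ideals which contain the radical. -/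
theorem phi_lt [IsSemisimpleRing (R ⧸ Ring.jacobson R)] (hK : RightKasch R) (hT : RightCyclicTight R)
    (hN : NilpotentOnSocle R) (A B : Ideal R) (hJA : Ring.jacobson R ≤ A)
    (hA : ∀ a ∈ A, ∀ r : R, a * r ∈ A) (hAB : A < B) : phi A < phi B := by
  refine lt_of_le_of_ne (phi_mono hAB.le) fun heq => ?_
  have hn := socle_noetherian hT hN
  have hss := socle_semisimple (R := R)
  -- a finite set with annihilator `HH B`
  obtain ⟨F, hF1, hF2⟩ := starS hT (HH B)
  have hLB : LL B ≤ HH B := fun t ht => ⟨ht.1, ht.2.2⟩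
  have hF3 : ∀ f ∈ F, f ∈ phi A := by
    intro f hf
    rw [heq]
    exact fun t ht => hF1 f hf t (hLB ht)
  have hLA : LL A ≤ HH B := fun t ht => hF2 t ht.1 fun f hf => hF3 f hf t ht
  -- the submodule `C` generated by the products
  let C : Submodule Rᵐᵒᵖ (rightSocle R) :=
    Submodule.span Rᵐᵒᵖ {y | ∃ x ∈ HH A, ∃ b ∈ B, y.1 = x * b}
  have hCst : ∀ r : R, ∀ z ∈ C, lmS r z ∈ C := by
    intro r
    have : C ≤ C.comap (lmS r) := by
      refine Submodule.span_le.2 ?_
      rintro y ⟨x, hx, b, hb, hy⟩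
      refine Submodule.subset_span ⟨r * x, ⟨mul_mem_socle r hx.1, fun a ha => ?_⟩, b, hb, ?_⟩
      · rw [mul_assoc, hx.2 a ha, mul_zero]
      · rw [lmS_coe, hy, mul_assoc]
    exact fun z hz => this hz
  have hC0 : C ≠ ⊥ := by
    obtain ⟨x, hx, b, hb, hxb⟩ := exists_sep hK A B hJA hA hAB.not_ge
    have hmem : x * b ∈ rightSocle R := by
      have := (rightSocle R).smul_mem (op b) hx.1
      exact this
    refine (Submodule.ne_bot_iff _).2 ⟨⟨x * b, hmem⟩, Submodule.subset_span ⟨x, hx, b, hb, rfl⟩, ?_⟩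
    intro h0
    exact hxb (congrArg Subtype.val h0)
  obtain ⟨t, htC, ht0, htJ⟩ := exists_mem_killed hN hn C hCst hC0
  -- `A` kills `C`
  have hCA : ∀ z ∈ C, ∀ a ∈ A, z.1 * a = 0 := by
    intro z hz a ha
    have : C ≤ (HH A).submoduleOf (rightSocle R) := by
      refine Submodule.span_le.2 ?_
      rintro y ⟨x, hx, b, hb, hy⟩
      refine ⟨y.2, fun a ha => ?_⟩
      rw [show ((rightSocle R).subtype y) = x * b from hy, mul_assoc]
      exact hx.2 _ (A.mul_mem_left b ha)
    exact (this hz).2 a ha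
  have htL : t.1 ∈ LL A := ⟨t.2, htJ, fun a ha => hCA t htC a ha⟩
  have htB : t.1 ∈ HH B := hLA htL
  -- the projection to `HH B` kills `C`
  obtain ⟨W, hW⟩ := exists_isCompl ((HH B).submoduleOf (rightSocle R))
  let π := Submodule.projectionOnto _ _ hW
  have hπ : C ≤ LinearMap.ker π := by
    refine Submodule.span_le.2 ?_
    rintro y ⟨x, hx, b, hb, hy⟩
    have h1 : y = op b • (⟨x, hx.1⟩ : rightSocle R) := Subtype.ext hy
    change y ∈ LinearMap.ker π
    rw [LinearMap.mem_ker, h1, map_smul]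
    apply Subtype.ext
    apply Subtype.ext
    exact (π ⟨x, hx.1⟩).2.2 b hb
  have h1 : π t = 0 := LinearMap.mem_ker.1 (hπ htC)
  have h2 : π t = ⟨t, htB⟩ := Submodule.projectionOnto_apply_left hW ⟨t, htB⟩
  rw [h1] at h2
  exact ht0 (congrArg Subtype.val h2).symm

/-- The left annihilator of `LL J` is `J`. -/
theorem phi_jacobson [IsSemisimpleRing (R ⧸ Ring.jacobson R)] (hK : RightKasch R)
    (hT : RightCyclicTight R) (hN : NilpotentOnSocle R) : phi (Ring.jacobson R) = Ring.jacobson R := by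
  by_contra hne
  have h0 : Ring.jacobson R < phi (Ring.jacobson R) :=
    lt_of_le_of_ne (jacobson_le_phi _) (Ne.symm hne)
  let D : ℕ → Ideal R := fun n => phi^[n] (Ring.jacobson R)
  have hD1 : ∀ n, D (n + 1) = phi (D n) := fun n => Function.iterate_succ_apply' _ _ _
  have hJD : ∀ n, Ring.jacobson R ≤ D n := by
    intro n
    cases n with
    | zero => exact le_rfl
    | succ n => rw [hD1]; exact jacobson_le_phi _
  have htwo : ∀ n, ∀ a ∈ D n, ∀ r : R, a * r ∈ D n := by
    intro n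
    cases n with
    | zero => exact fun a ha r => (Ring.jacobson R).mul_mem_right r ha
    | succ n => intro a ha r; rw [hD1] at ha ⊢; exact phi_mul_right _ ha r
  have hlt : ∀ n, D n < D (n + 1) := by
    intro n
    induction n with
    | zero => exact h0
    | succ n ih =>
      have h1 := phi_lt hK hT hN (D n) (D (n + 1)) (hJD n) (htwo n) ih
      rwa [← hD1, ← hD1] at h1
  have hnoe : IsNoetherian (R ⧸ Ring.jacobson R) (R ⧸ Ring.jacobson R) := inferInstance
  have hwf : WellFoundedGT (Submodule (R ⧸ Ring.jacobson R) (R ⧸ Ring.jacobson R)) := inferInstance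
  obtain ⟨n, hn⟩ := WellFounded.not_rel_apply_succ
    (r := ((· > ·) : Submodule (R ⧸ Ring.jacobson R) (R ⧸ Ring.jacobson R) → _ → Prop))
    (fun n => (D n).map (Ideal.Quotient.mk (Ring.jacobson R)))
  refine hn (lt_of_le_of_ne (Ideal.map_mono (hlt n).le) fun heq => (hlt n).not_ge fun x hx => ?_)
  have h1 : Ideal.Quotient.mk (Ring.jacobson R) x ∈
      (D n).map (Ideal.Quotient.mk (Ring.jacobson R)) := by
    rw [heq]; exact Ideal.mem_map_of_mem _ hx
  obtain ⟨y, hy, hyx⟩ := (Ideal.mem_map_iff_of_surjective _ Ideal.Quotient.mk_surjective).1 h1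
  have h2 : y - x ∈ Ring.jacobson R := (Ideal.Quotient.mk_eq_mk_iff_sub_mem _ _).1 hyx
  have h3 := (D n).sub_mem hy (hJD n h2)
  rwa [sub_sub_cancel] at h3

/-- The ring is left Kasch. -/
theorem leftKasch_of_semilocal [IsSemisimpleRing (R ⧸ Ring.jacobson R)] (hK : RightKasch R)
    (hT : RightCyclicTight R) (hN : NilpotentOnSocle R) : LeftKasch R := by
  intro M _ _ hM
  obtain ⟨N, hNmax, ⟨e⟩⟩ := isSimpleModule_iff_quot_maximal.1 hM
  have hJN : Ring.jacobson R ≤ N := Ring.jacobson_le_of_isMaximal N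
  obtain ⟨g', hidem, hspan⟩ := IsSemisimpleRing.ideal_eq_span_idempotent
    (N.map (Ideal.Quotient.mk (Ring.jacobson R)))
  have hg' : g' ∈ N.map (Ideal.Quotient.mk (Ring.jacobson R)) := by
    rw [hspan]; exact Ideal.mem_span_singleton_self _
  obtain ⟨g, hg, rfl⟩ := (Ideal.mem_map_iff_of_surjective _ Ideal.Quotient.mk_surjective).1 hg'
  have h1 : (1 - g) ∉ phi (Ring.jacobson R) := by
    rw [phi_jacobson hK hT hN]
    intro h1
    have := N.add_mem (hJN h1) hg
    rw [sub_add_cancel] at this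
    exact hNmax.ne_top ((Ideal.eq_top_iff_one N).2 this)
  have h2 : ∃ t ∈ LL (Ring.jacobson R), (1 - g) * t ≠ 0 := by
    by_contra hcon
    push Not at hcon
    exact h1 hcon
  obtain ⟨t, ht, ht0⟩ := h2
  have hkill : ∀ n ∈ N, n * ((1 - g) * t) = 0 := by
    intro n hn
    rw [← mul_assoc]
    refine ht.2.1 _ ?_
    have h5 : Ideal.Quotient.mk (Ring.jacobson R) n ∈ N.map (Ideal.Quotient.mk (Ring.jacobson R)) :=
      Ideal.mem_map_of_mem _ hn
    rw [hspan] at h5
    obtain ⟨c, hc⟩ := Ideal.mem_span_singleton'.1 h5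
    rw [← Ideal.Quotient.eq_zero_iff_mem, map_mul, map_sub, map_one, ← hc, mul_sub, mul_one, mul_assoc,
      hidem.eq, sub_self]
  have : IsSimpleModule R (R ⧸ N) := isSimpleModule_iff_isCoatom.2 hNmax.out
  let f : (R ⧸ N) →ₗ[R] R := N.liftQ (LinearMap.toSpanSingleton R R ((1 - g) * t)) (fun n hn => by
    rw [LinearMap.mem_ker, LinearMap.toSpanSingleton_apply, smul_eq_mul]
    exact hkill n hn)
  have hf : Function.Injective f := LinearMap.injective_of_ne_zero (fun h0 => by
    apply ht0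
    have := LinearMap.congr_fun h0 (N.mkQ 1)
    simpa [f] using this)
  exact ⟨f ∘ₗ e.toLinearMap, hf.comp e.injective⟩

end Pool.Agent.K6.H19.KT
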